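import Mathlib
import Pool.Agent.H235R2.Kad3.Sim

/-! Averaging over a finite group of invertible operators: the norm `‖S ξ‖` is the mean of the
norms `‖U g ξ‖`. -/

open scoped ComplexOrder InnerProductSpace ComplexConjugate
open Finset

noncomputable section

namespace Pool.Agent.Y784.KS

open H759R2.Kad H759R2.Kad.A25

universe u v

variable {H : Type v} [NormedAddCommGroup H] [InnerProductSpace ℂ H] [CompleteSpace H]

/-- Finite groups of invertible operators with bounded inverses are similar to unitary ones. -/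
theorem unitarize {G : Type*} [Fintype G] [Nonempty G] (U : G → (H →L[ℂ] H)) {c : ℝ} (hc : 0 ≤ c)
    (h2 : ∀ g, ∃ V : H →L[ℂ] H, V * U g = 1 ∧ U g * V = 1 ∧ ‖V‖ ≤ c)
    (h3 : ∀ h, ∃ φ : G ≃ G, ∀ g, U (φ g) = U g * U h) :
    ∃ S S' : H →L[ℂ] H, S * S' = 1 ∧ S' * S = 1 ∧
      (∀ ξ, ‖S ξ‖ ^ 2 = (Fintype.card G : ℝ)⁻¹ * ∑ g, ‖U g ξ‖ ^ 2) ∧
      ∀ (h : G) (V : H →L[ℂ] H), U h * V = 1 → star (S * U h * S') = S * V * S' := by
  rcases subsingleton_or_nontrivial H with hH | hH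
  · refine ⟨0, 0, Subsingleton.elim _ _, Subsingleton.elim _ _, fun ξ => ?_,
      fun _ _ _ => Subsingleton.elim _ _⟩
    have h0 : ∀ x : H, ‖x‖ = 0 := fun x => by rw [Subsingleton.elim x 0, norm_zero]
    simp [h0]
  have hcpos : 0 < c := by
    obtain ⟨g⟩ := (inferInstance : Nonempty G)
    obtain ⟨V, hV1, -, hV3⟩ := h2 g
    rcases hc.eq_or_lt with h0 | h0
    · exfalso
      rw [← h0] at hV3
      have : V = 0 := norm_le_zero_iff.mp hV3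
      rw [this, zero_mul] at hV1
      exact zero_ne_one hV1
    · exact h0
  have hcard : (0 : ℝ) < Fintype.card G := by exact_mod_cast Fintype.card_pos
  set T : H →L[ℂ] H := ((Fintype.card G : ℝ)⁻¹ : ℝ) • ∑ g, star (U g) * U g with hT
  have hTn : 0 ≤ T := by
    apply smul_nonneg (by positivity)
    exact Finset.sum_nonneg fun g _ => star_mul_self_nonneg _
  have hTin : ∀ ξ, ⟪T ξ, ξ⟫_ℂ = (((Fintype.card G : ℝ)⁻¹ * ∑ g, ‖U g ξ‖ ^ 2 : ℝ) : ℂ) := by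
    intro ξ
    have e1 : T ξ = ((Fintype.card G : ℝ)⁻¹ : ℝ) • ∑ g, (star (U g) * U g) ξ := by
      rw [hT]
      simp
    have e2 : ∀ (r : ℝ) (x : H), r • x = ((r : ℝ) : ℂ) • x := fun r x => (Complex.coe_smul r x).symm
    rw [e1, e2, inner_smul_left, Complex.conj_ofReal, sum_inner]
    simp only [inner_star_mul]
    push_cast
    rfl
  have hlow : ∀ ξ, ‖ξ‖ ^ 2 ≤ c ^ 2 * ((Fintype.card G : ℝ)⁻¹ * ∑ g, ‖U g ξ‖ ^ 2) := by
    intro ξ
    have hg : ∀ g ∈ (univ : Finset G), ‖ξ‖ ^ 2 ≤ c ^ 2 * ‖U g ξ‖ ^ 2 := by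
      intro g _
      obtain ⟨V, hV1, -, hV3⟩ := h2 g
      have e : ξ = V (U g ξ) := by
        have : (V * U g) ξ = ξ := by rw [hV1]; rfl
        exact this.symm
      have : ‖ξ‖ ≤ c * ‖U g ξ‖ := by
        calc ‖ξ‖ = ‖V (U g ξ)‖ := by rw [← e]
          _ ≤ ‖V‖ * ‖U g ξ‖ := V.le_opNorm _
          _ ≤ c * ‖U g ξ‖ := by gcongr
      calc ‖ξ‖ ^ 2 ≤ (c * ‖U g ξ‖) ^ 2 := pow_le_pow_left₀ (norm_nonneg _) this 2
        _ = c ^ 2 * ‖U g ξ‖ ^ 2 := by ring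
    have := Finset.sum_le_sum hg
    rw [Finset.sum_const, Finset.card_univ, nsmul_eq_mul, ← Finset.mul_sum] at this
    calc ‖ξ‖ ^ 2 = (Fintype.card G : ℝ)⁻¹ * ((Fintype.card G : ℝ) * ‖ξ‖ ^ 2) := by
          field_simp
      _ ≤ (Fintype.card G : ℝ)⁻¹ * (c ^ 2 * ∑ g, ‖U g ξ‖ ^ 2) := by gcongr
      _ = _ := by ring
  have hTu : IsUnit T := by
    have hcc : (0 : NNReal) < ⟨(c ^ 2)⁻¹, by positivity⟩ := by
      have : (0 : ℝ) < (c ^ 2)⁻¹ := by positivity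
      exact this
    refine ContinuousLinearMap.isUnit_of_forall_le_norm_inner_map T hcc fun ξ => ?_
    rw [hTin]
    rw [Complex.norm_real, Real.norm_eq_abs]
    refine le_trans ?_ (le_abs_self _)
    change ‖ξ‖ ^ 2 * (c ^ 2)⁻¹ ≤ _
    rw [← div_eq_mul_inv, div_le_iff₀ (by positivity)]
    linarith [hlow ξ]
  set S := CFC.sqrt T with hS
  have hSS : S * S = T := CFC.sqrt_mul_sqrt_self T hTn
  have hSsa : star S = S := (IsSelfAdjoint.of_nonneg (CFC.sqrt_nonneg T)).star_eq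
  have hSu : IsUnit S := by
    have : IsUnit (S * S) := by rw [hSS]; exact hTu
    exact ((Commute.refl S).isUnit_mul_iff.mp this).1
  obtain ⟨w, hw⟩ := hSu
  set S' : H →L[ℂ] H := ((w⁻¹ : (H →L[ℂ] H)ˣ) : H →L[ℂ] H) with hS'
  have i1 : S * S' = 1 := by rw [← hw, hS']; exact w.mul_inv
  have i2 : S' * S = 1 := by rw [← hw, hS']; exact w.inv_mul
  have hSn : ∀ ξ, ‖S ξ‖ ^ 2 = (Fintype.card G : ℝ)⁻¹ * ∑ g, ‖U g ξ‖ ^ 2 := by
    intro ξ
    have e1 := inner_star_mul S ξ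
    rw [hSsa, hSS, hTin] at e1
    exact_mod_cast e1.symm
  have hS's : star S' = S' := by
    have e1 : star S' * S = 1 := by
      have := congrArg star i1
      rw [star_mul, hSsa, star_one] at this
      exact this
    calc star S' = star S' * (S * S') := by rw [i1, mul_one]
      _ = S' := by rw [← mul_assoc, e1, one_mul]
  have hTinv : ∀ h, star (U h) * T * U h = T := by
    intro h
    obtain ⟨φ, hφ⟩ := h3 h
    rw [hT, mul_smul_comm, smul_mul_assoc, Finset.mul_sum, Finset.sum_mul]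
    congr 1
    rw [← Equiv.sum_comp φ (fun g => star (U g) * U g)]
    refine Finset.sum_congr rfl fun g _ => ?_
    rw [hφ, star_mul]
    simp only [mul_assoc]
  refine ⟨S, S', i1, i2, hSn, ?_⟩
  intro h V hV
  have e1 : star (U h) * (S * S) = S * S * V := by
    have := hTinv h
    rw [← hSS] at this
    calc star (U h) * (S * S) = star (U h) * (S * S) * (U h * V) := by rw [hV, mul_one]
      _ = star (U h) * (S * S) * U h * V := by simp only [mul_assoc]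
      _ = S * S * V := by rw [this]
  rw [star_mul, star_mul, hS's, hSsa]
  calc S' * (star (U h) * S) = S' * (star (U h) * (S * S)) * S' := by
        simp only [mul_assoc, i1, mul_one]
    _ = S' * (S * S * V) * S' := by rw [e1]
    _ = (S' * S) * S * V * S' := by simp only [mul_assoc]
    _ = S * V * S' := by rw [i2, one_mul]

section avg

variable {G : Type*} [Fintype G] [Nonempty G] {U : G → (H →L[ℂ] H)} {S S' : H →L[ℂ] H}

omit [CompleteSpace H] [Nonempty G] in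
/-- Upper bound for `S T` from bounds for all `U g T`. -/
theorem norm_S_mul (hS : ∀ ξ, ‖S ξ‖ ^ 2 = (Fintype.card G : ℝ)⁻¹ * ∑ g, ‖U g ξ‖ ^ 2)
    (T : H →L[ℂ] H) {b : ℝ} (hb : 0 ≤ b) (h : ∀ g ξ, ‖U g (T ξ)‖ ≤ b * ‖ξ‖) (ξ : H) :
    ‖S (T ξ)‖ ≤ b * ‖ξ‖ := by
  refine le_of_sq_le_sq ?_ (by positivity)
  rw [hS]
  have h1 : ∑ g, ‖U g (T ξ)‖ ^ 2 ≤ ∑ _g : G, (b * ‖ξ‖) ^ 2 :=
    Finset.sum_le_sum fun g _ => pow_le_pow_left₀ (norm_nonneg _) (h g ξ) 2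
  rw [Finset.sum_const, Finset.card_univ, nsmul_eq_mul] at h1
  rcases Nat.eq_zero_or_pos (Fintype.card G) with h0 | h0
  · rw [h0]
    simp only [Nat.cast_zero, inv_zero, zero_mul]
    positivity
  have hcard : (0 : ℝ) < Fintype.card G := by exact_mod_cast h0
  calc (Fintype.card G : ℝ)⁻¹ * ∑ g, ‖U g (T ξ)‖ ^ 2
      ≤ (Fintype.card G : ℝ)⁻¹ * ((Fintype.card G : ℝ) * (b * ‖ξ‖) ^ 2) := by gcongr
    _ = (b * ‖ξ‖) ^ 2 := by field_simp

omit [CompleteSpace H] in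
/-- Lower bound for `‖S ξ‖`: if `‖T ξ‖ ≤ b ‖U g ξ‖` for all `g` then `‖T ξ‖ ≤ b ‖S ξ‖`. -/
theorem norm_le_S (hS : ∀ ξ, ‖S ξ‖ ^ 2 = (Fintype.card G : ℝ)⁻¹ * ∑ g, ‖U g ξ‖ ^ 2)
    {E : Type*} [NormedAddCommGroup E] (y : E) {b : ℝ} (hb : 0 ≤ b) (ξ : H)
    (h : ∀ g, ‖y‖ ≤ b * ‖U g ξ‖) : ‖y‖ ≤ b * ‖S ξ‖ := by
  refine le_of_sq_le_sq ?_ (by positivity)
  rw [mul_pow, hS]
  have h1 : ∑ _g : G, ‖y‖ ^ 2 ≤ ∑ g, b ^ 2 * ‖U g ξ‖ ^ 2 :=
    Finset.sum_le_sum fun g _ => by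
      rw [← mul_pow]
      exact pow_le_pow_left₀ (norm_nonneg _) (h g) 2
  rw [Finset.sum_const, Finset.card_univ, nsmul_eq_mul, ← Finset.mul_sum] at h1
  have hcard : (0 : ℝ) < Fintype.card G := by exact_mod_cast Fintype.card_pos
  calc ‖y‖ ^ 2 = (Fintype.card G : ℝ)⁻¹ * ((Fintype.card G : ℝ) * ‖y‖ ^ 2) := by field_simp
    _ ≤ (Fintype.card G : ℝ)⁻¹ * (b ^ 2 * ∑ g, ‖U g ξ‖ ^ 2) := by gcongr
    _ = _ := by ring

omit [CompleteSpace H] [Nonempty G] in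
/-- The averaged norm does not increase the norm of an operator `T` if all conjugates are
bounded by `b`: `U g T = R U g` with `‖R‖ ≤ b`. -/
theorem norm_S_conj (hS : ∀ ξ, ‖S ξ‖ ^ 2 = (Fintype.card G : ℝ)⁻¹ * ∑ g, ‖U g ξ‖ ^ 2)
    (hSS' : S * S' = 1) (T : H →L[ℂ] H) {b : ℝ} (hb : 0 ≤ b)
    (h : ∀ g ξ, ‖U g (T ξ)‖ ≤ b * ‖U g ξ‖) : ‖S * T * S'‖ ≤ b := by
  refine ContinuousLinearMap.opNorm_le_bound _ hb fun η => ?_
  have e : S (S' η) = η := by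
    have : (S * S') η = η := by rw [hSS']; rfl
    exact this
  change ‖S (T (S' η))‖ ≤ b * ‖η‖
  conv_rhs => rw [← e]
  refine le_of_sq_le_sq ?_ (by positivity)
  rw [mul_pow, hS, hS]
  have h1 : ∑ g, ‖U g (T (S' η))‖ ^ 2 ≤ b ^ 2 * ∑ g, ‖U g (S' η)‖ ^ 2 := by
    rw [Finset.mul_sum]
    refine Finset.sum_le_sum fun g _ => ?_
    rw [← mul_pow]
    exact pow_le_pow_left₀ (norm_nonneg _) (h g _) 2
  have h0 : (0 : ℝ) ≤ (Fintype.card G : ℝ)⁻¹ := by positivity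
  calc (Fintype.card G : ℝ)⁻¹ * ∑ g, ‖U g (T (S' η))‖ ^ 2
      ≤ (Fintype.card G : ℝ)⁻¹ * (b ^ 2 * ∑ g, ‖U g (S' η)‖ ^ 2) :=
        mul_le_mul_of_nonneg_left h1 h0
    _ = _ := by ring

end avg

end Pool.Agent.Y784.KS
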