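import Mathlib
import Pool.Agent.Y784.KS.Uni
import Pool.Agent.H711R2.KG.Defs

/-! Matrix units with a remainder, and the finite group of unitaries that they generate. -/

open scoped ComplexOrder InnerProductSpace ComplexConjugate
open Finset

noncomputable section

namespace Pool.Agent.Y784.KS

open H759R2.Kad H759R2.Kad.A25 H711R2.KG

universe u v

section mu

variable {B : Type u} [CStarAlgebra B] {ι : Type} [Fintype ι] [DecidableEq ι]

/-- The map `s ↦ ∑ s_ab w_a w_b*`. -/
def mu (w : ι → B) (s : Matrix ι ι ℂ) : B := ∑ a, ∑ b, s a b • (w a * star (w b))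

/-- Partial isometries with the same source `q` and orthogonal ranges. -/
structure MUF (w : ι → B) (q : B) : Prop where
  ww : ∀ a b, star (w a) * w b = if a = b then q else 0
  wq : ∀ a, w a * q = w a

omit [DecidableEq ι] in
theorem mu_add (w : ι → B) (s t : Matrix ι ι ℂ) : mu w (s + t) = mu w s + mu w t := by
  simp only [mu, Matrix.add_apply, add_smul, Finset.sum_add_distrib]

omit [DecidableEq ι] in
theorem mu_smul (w : ι → B) (c : ℂ) (s : Matrix ι ι ℂ) : mu w (c • s) = c • mu w s := by
  simp only [mu, Matrix.smul_apply, smul_assoc, Finset.smul_sum]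

omit [DecidableEq ι] in
theorem mu_star (w : ι → B) (s : Matrix ι ι ℂ) : star (mu w s) = mu w (star s) := by
  rw [mu, star_sum]
  simp only [star_sum, star_smul, star_mul, star_star]
  rw [Finset.sum_comm]
  rfl

theorem mu_single (w : ι → B) (a b : ι) : mu w (Matrix.single a b 1) = w a * star (w b) := by
  rw [mu, Finset.sum_eq_single a]
  · rw [Finset.sum_eq_single b]
    · rw [Matrix.single_apply_same, one_smul]
    · intro j _ hj
      rw [Matrix.single_apply, if_neg (fun h => hj h.2.symm), zero_smul]
    · simp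
  · intro i _ hi
    refine Finset.sum_eq_zero fun j _ => ?_
    rw [Matrix.single_apply, if_neg (fun h => hi h.1.symm), zero_smul]
  · simp

theorem mu_one (w : ι → B) : mu w 1 = ∑ a, w a * star (w a) := by
  rw [mu]
  refine Finset.sum_congr rfl fun a _ => ?_
  rw [Finset.sum_eq_single a]
  · rw [Matrix.one_apply_eq, one_smul]
  · intro j _ hj
    rw [Matrix.one_apply_ne (Ne.symm hj), zero_smul]
  · simp

theorem mu_mul {w : ι → B} {q : B} (h : MUF w q) (s t : Matrix ι ι ℂ) :
    mu w s * mu w t = mu w (s * t) := by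
  have e1 : ∀ i j k l, (s i j • (w i * star (w j))) * (t k l • (w k * star (w l))) =
      if j = k then (s i j * t k l) • (w i * star (w l)) else 0 := by
    intro i j k l
    rw [smul_mul_smul_comm]
    have : w i * star (w j) * (w k * star (w l)) = w i * (star (w j) * w k) * star (w l) := by
      noncomm_ring
    rw [this, h.ww]
    split_ifs with h'
    · rw [h.wq]
    · rw [mul_zero, zero_mul, smul_zero]
  symm
  calc ∑ i, ∑ l, (s * t) i l • (w i * star (w l))
      = ∑ i, ∑ l, ∑ j, (s i j * t j l) • (w i * star (w l)) := by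
        simp only [Matrix.mul_apply, Finset.sum_smul]
    _ = ∑ i, ∑ j, ∑ l, (s i j * t j l) • (w i * star (w l)) := by
        refine Finset.sum_congr rfl fun i _ => ?_
        rw [Finset.sum_comm]
    _ = ∑ i, ∑ j, ∑ k, ∑ l, (s i j • (w i * star (w j))) * (t k l • (w k * star (w l))) := by
        refine Finset.sum_congr rfl fun i _ => Finset.sum_congr rfl fun j _ => ?_
        simp only [e1]
        symm
        rw [Finset.sum_eq_single j]
        · simp
        · intro k _ hk
          simp [Ne.symm hk]
        · simp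
    _ = (∑ i, ∑ j, s i j • (w i * star (w j))) * ∑ k, ∑ l, t k l • (w k * star (w l)) := by
        rw [Finset.sum_mul]
        refine Finset.sum_congr rfl fun i _ => ?_
        rw [Finset.sum_mul]
        refine Finset.sum_congr rfl fun j _ => ?_
        rw [Finset.mul_sum]
        refine Finset.sum_congr rfl fun k _ => ?_
        rw [Finset.mul_sum]

omit [DecidableEq ι] in
theorem mu_cross {w : ι → B} {κ : Type} [Fintype κ] {y : κ → B}
    (h : ∀ a j, star (w a) * y j = 0) (s : Matrix ι ι ℂ) (t : Matrix κ κ ℂ) :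
    mu w s * mu y t = 0 := by
  rw [mu, mu, Finset.sum_mul]
  refine Finset.sum_eq_zero fun a _ => ?_
  rw [Finset.sum_mul]
  refine Finset.sum_eq_zero fun b _ => ?_
  rw [Finset.mul_sum]
  refine Finset.sum_eq_zero fun i _ => ?_
  rw [Finset.mul_sum]
  refine Finset.sum_eq_zero fun j _ => ?_
  rw [smul_mul_smul_comm]
  have : w a * star (w b) * (y i * star (y j)) = w a * (star (w b) * y i) * star (y j) := by
    noncomm_ring
  rw [this, h, mul_zero, zero_mul, smul_zero]

end mu

section gd

variable {B : Type u} [CStarAlgebra B]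

theorem mul_src {v r : B} (hr : IsPrj r) (h : star v * v = r) : v * r = v := by
  have h0 : star (v - v * r) * (v - v * r) = 0 := by
    rw [star_sub, star_mul, hr.1]
    have : (star v - r * star v) * (v - v * r)
        = star v * v - star v * v * r - r * (star v * v) + r * (star v * v) * r := by
      noncomm_ring
    rw [this, h, hr.2, hr.2]
    abel
  have h1 := CStarRing.star_mul_self_eq_zero_iff (v - v * r) |>.1 h0
  exact (sub_eq_zero.1 h1).symm

/-- Matrix units `t_i t_j*` with `n` equivalent projections, and a remainder `v* v` that is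
equivalent to a subprojection of each of them, all together adding up to the central
projection `z`. -/
structure GDec {n : ℕ} (z : B) (t : Fin n → B) (i0 : Fin n) (v : B) : Prop where
  zp : IsPrj z
  zc : ∀ a, z * a = a * z
  tt : ∀ i j, star (t i) * t j = if i = j then t i0 else 0
  fv : t i0 * v = v
  rp : IsPrj (star v * v)
  vt : ∀ i, v * t i = 0
  sum : ∑ i, t i * star (t i) + star v * v = z

namespace GDec

variable {n : ℕ} {z : B} {t : Fin n → B} {i0 : Fin n} {v : B}

theorem fp (D : GDec z t i0 v) : IsPrj (t i0) := by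
  have h := D.tt i0 i0
  rw [if_pos rfl] at h
  have h1 : star (t i0) = t i0 := by
    have := congrArg star h
    rw [star_mul, star_star, h] at this
    exact this.symm
  exact ⟨h1, by rw [h1] at h; exact h⟩

theorem tf (D : GDec z t i0 v) (i : Fin n) : t i * t i0 = t i :=
  mul_src D.fp (by rw [D.tt, if_pos rfl])

theorem vr (D : GDec z t i0 v) : v * (star v * v) = v := mul_src D.rp rfl

theorem vr' (D : GDec z t i0 v) : star v * v * star v = star v := by
  have := congrArg star D.vr
  rwa [star_mul, star_mul, star_star] at this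

theorem fv' (D : GDec z t i0 v) : star v * t i0 = star v := by
  have := congrArg star D.fv
  rwa [star_mul, D.fp.1] at this

theorem vt' (D : GDec z t i0 v) (i : Fin n) : star (t i) * star v = 0 := by
  rw [← star_mul, D.vt, star_zero]

/-- The family generating the block of size `n + 1`. -/
def wf (t : Fin n → B) (v : B) : Option (Fin n) → B
  | none => star v * v
  | some i => t i * v

/-- The family generating the block of size `n`. -/
def yf (t : Fin n → B) (i0 : Fin n) (v : B) (i : Fin n) : B := t i * (t i0 - v * star v)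

theorem qy (D : GDec z t i0 v) : IsPrj (t i0 - v * star v) := by
  have h1 : v * star v * (v * star v) = v * star v := by
    calc v * star v * (v * star v) = v * (star v * v * star v) := by noncomm_ring
      _ = v * star v := by rw [D.vr']
  refine ⟨by rw [star_sub, D.fp.1, star_mul, star_star], ?_⟩
  have e : (t i0 - v * star v) * (t i0 - v * star v) =
      t i0 * t i0 - (t i0 * v) * star v - v * (star v * t i0) + v * star v * (v * star v) := by
    noncomm_ring
  rw [e, D.fp.2, D.fv, D.fv', h1]
  abel

theorem hw (D : GDec z t i0 v) : MUF (wf t v) (star v * v) := by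
  refine ⟨?_, ?_⟩
  · rintro (_ | i) (_ | j)
    · simp only [wf, if_true]
      rw [D.rp.1, D.rp.2]
    · simp only [wf, reduceCtorEq, if_false]
      rw [D.rp.1]
      calc star v * v * (t j * v) = star v * (v * t j) * v := by noncomm_ring
        _ = 0 := by rw [D.vt]; simp
    · simp only [wf, reduceCtorEq, if_false]
      rw [star_mul]
      calc star v * star (t i) * (star v * v) = star v * (star (t i) * star v) * v := by
            noncomm_ring
        _ = 0 := by rw [D.vt']; simp
    · simp only [wf, Option.some.injEq]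
      rw [star_mul]
      have e : star v * star (t i) * (t j * v) = star v * (star (t i) * t j) * v := by
        noncomm_ring
      rw [e, D.tt]
      split_ifs with h
      · rw [D.fv']
      · simp
  · rintro (_ | i)
    · simp only [wf]
      exact D.rp.2
    · simp only [wf]
      rw [mul_assoc, D.vr]

theorem hy (D : GDec z t i0 v) : MUF (yf t i0 v) (t i0 - v * star v) := by
  refine ⟨?_, ?_⟩
  · intro i j
    simp only [yf]
    rw [star_mul, D.qy.1]
    have e : (t i0 - v * star v) * star (t i) * (t j * (t i0 - v * star v)) =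
        (t i0 - v * star v) * (star (t i) * t j) * (t i0 - v * star v) := by noncomm_ring
    rw [e, D.tt]
    split_ifs with h
    · have e2 : (t i0 - v * star v) * t i0 = t i0 - v * star v := by
        rw [sub_mul, D.fp.2, mul_assoc, D.fv']
      rw [e2, D.qy.2]
    · simp
  · intro i
    simp only [yf]
    rw [mul_assoc, D.qy.2]

theorem hwy (D : GDec z t i0 v) (a : Option (Fin n)) (j : Fin n) :
    star (wf t v a) * yf t i0 v j = 0 := by
  rcases a with _ | i
  · simp only [wf, yf]
    rw [D.rp.1]
    calc star v * v * (t j * (t i0 - v * star v)) =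
        star v * (v * t j) * (t i0 - v * star v) := by noncomm_ring
      _ = 0 := by rw [D.vt]; simp
  · simp only [wf, yf]
    rw [star_mul]
    have e : star v * star (t i) * (t j * (t i0 - v * star v)) =
        star v * (star (t i) * t j) * (t i0 - v * star v) := by noncomm_ring
    rw [e, D.tt]
    split_ifs with h
    · rw [D.fv']
      have e2 : star v * (t i0 - v * star v) = star v * t i0 - star v * v * star v := by
        noncomm_ring
      rw [e2, D.fv', D.vr', sub_self]
    · simp

theorem hyw (D : GDec z t i0 v) (j : Fin n) (a : Option (Fin n)) :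
    star (yf t i0 v j) * wf t v a = 0 := by
  have := congrArg star (D.hwy a j)
  rwa [star_mul, star_star, star_zero] at this

theorem sum_one (D : GDec z t i0 v) :
    mu (wf t v) 1 + mu (yf t i0 v) 1 = z := by
  rw [mu_one, mu_one, Fintype.sum_option]
  have e1 : wf t v none * star (wf t v none) = star v * v := by
    simp only [wf]
    rw [D.rp.1, D.rp.2]
  have e2 : ∀ i, wf t v (some i) * star (wf t v (some i)) +
      yf t i0 v i * star (yf t i0 v i) = t i * star (t i) := by
    intro i
    simp only [wf, yf]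
    rw [star_mul, star_mul, D.qy.1]
    have e3 : t i * v * (star v * star (t i)) +
        t i * (t i0 - v * star v) * ((t i0 - v * star v) * star (t i)) =
        t i * (v * star v + (t i0 - v * star v) * (t i0 - v * star v)) * star (t i) := by
      noncomm_ring
    rw [e3, D.qy.2]
    have e4 : v * star v + (t i0 - v * star v) = t i0 := by abel
    rw [e4, D.tf]
  rw [e1, add_assoc, ← Finset.sum_add_distrib, Finset.sum_congr rfl fun i _ => e2 i, add_comm]
  exact D.sum

end GDec

/-- Index type of the group. -/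
abbrev GI (n : ℕ) : Type :=
  (Equiv.Perm (Option (Fin n)) × (Option (Fin n) → ℤˣ)) × (Equiv.Perm (Fin n) × (Fin n → ℤˣ))

/-- The elements of the group. -/
def UB {n : ℕ} (z : B) (t : Fin n → B) (i0 : Fin n) (v : B) (g : GI n) : B :=
  mu (GDec.wf t v) (spm g.1.1 g.1.2) + mu (GDec.yf t i0 v) (spm g.2.1 g.2.2) + (1 - z)

namespace GDec

variable {n : ℕ} {z : B} {t : Fin n → B} {i0 : Fin n} {v : B}

/-- General elements of the algebra generated by the group. -/
def el (z : B) (t : Fin n → B) (i0 : Fin n) (v : B)
    (s : Matrix (Option (Fin n)) (Option (Fin n)) ℂ) (s' : Matrix (Fin n) (Fin n) ℂ) : B :=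
  mu (wf t v) s + mu (yf t i0 v) s' + (1 - z)

theorem mu_z (D : GDec z t i0 v) (s : Matrix (Option (Fin n)) (Option (Fin n)) ℂ) :
    mu (wf t v) s * z = mu (wf t v) s := by
  rw [← D.sum_one, mul_add, mu_mul D.hw, mul_one, mu_cross D.hwy, add_zero]

theorem mu_z' (D : GDec z t i0 v) (s : Matrix (Fin n) (Fin n) ℂ) :
    mu (yf t i0 v) s * z = mu (yf t i0 v) s := by
  rw [← D.sum_one, mul_add, mu_mul D.hy, mul_one, mu_cross D.hyw, zero_add]

theorem el_mul (D : GDec z t i0 v) (s r : Matrix (Option (Fin n)) (Option (Fin n)) ℂ)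
    (s' r' : Matrix (Fin n) (Fin n) ℂ) :
    el z t i0 v s s' * el z t i0 v r r' = el z t i0 v (s * r) (s' * r') := by
  unfold el
  have e1 : mu (wf t v) s * (1 - z) = 0 := by rw [mul_sub, mul_one, D.mu_z, sub_self]
  have e2 : mu (yf t i0 v) s' * (1 - z) = 0 := by rw [mul_sub, mul_one, D.mu_z', sub_self]
  have e3 : (1 - z) * mu (wf t v) r = 0 := by
    rw [sub_mul, one_mul, D.zc, D.mu_z, sub_self]
  have e4 : (1 - z) * mu (yf t i0 v) r' = 0 := by
    rw [sub_mul, one_mul, D.zc, D.mu_z', sub_self]
  have e5 : (1 - z) * (1 - z) = 1 - z := by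
    have : (1 - z) * (1 - z) = 1 - z - z + z * z := by noncomm_ring
    rw [this, D.zp.2]
    abel
  have e6 := mu_mul D.hw s r
  have e7 := mu_mul D.hy s' r'
  have e8 := mu_cross D.hwy s r'
  have e9 := mu_cross D.hyw s' r
  rw [← e6, ← e7, add_mul, add_mul, mul_add, mul_add, mul_add, mul_add, mul_add, mul_add,
    e1, e2, e3, e4, e5, e8, e9]
  abel

theorem el_star (D : GDec z t i0 v) (s : Matrix (Option (Fin n)) (Option (Fin n)) ℂ)
    (s' : Matrix (Fin n) (Fin n) ℂ) :
    star (el z t i0 v s s') = el z t i0 v (star s) (star s') := by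
  unfold el
  rw [star_add, star_add, mu_star, mu_star, star_sub, star_one, D.zp.1]

theorem el_one (D : GDec z t i0 v) : el z t i0 v 1 1 = 1 := by
  unfold el
  rw [D.sum_one]
  abel

theorem UB_unitary (D : GDec z t i0 v) (g : GI n) : UB z t i0 v g ∈ unitary B := by
  have h1 := spm_mem g.1.1 g.1.2
  have h2 := spm_mem g.2.1 g.2.2
  rw [Unitary.mem_iff] at h1 h2 ⊢
  constructor
  · change star (el z t i0 v _ _) * el z t i0 v _ _ = 1
    rw [D.el_star, D.el_mul, h1.1, h2.1, D.el_one]
  · change el z t i0 v _ _ * star (el z t i0 v _ _) = 1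
    rw [D.el_star, D.el_mul, h1.2, h2.2, D.el_one]

theorem UB_mul (D : GDec z t i0 v) (g h : GI n) : UB z t i0 v g * UB z t i0 v h =
    UB z t i0 v (rmul h.1.1 h.1.2 g.1, rmul h.2.1 h.2.2 g.2) := by
  change el z t i0 v _ _ * el z t i0 v _ _ = _
  rw [D.el_mul, spm_mul, spm_mul]
  rfl

theorem hsingle {ι : Type} [Fintype ι] [DecidableEq ι] (i j : ι) :
    Matrix.single i j (1 : ℂ) =
      (1 / 2 : ℂ) • (spm (Equiv.swap i j) (fun _ => 1) +
        (-1 : ℂ) • spm (Equiv.swap i j) (Function.update (fun _ => 1) i (-1))) := by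
  ext a b
  rw [Matrix.smul_apply, Matrix.add_apply, Matrix.smul_apply, spm_apply, spm_apply,
    Matrix.single_apply]
  by_cases ha : a = i
  · subst ha
    by_cases hb : b = j
    · subst hb
      simp
      norm_num
    · have hb' : ¬ (j = b) := fun h => hb h.symm
      simp [hb']
  · have ha' : ¬ (i = a) := fun h => ha h.symm
    simp only [Function.update_of_ne ha, ha', false_and, if_false, Units.val_one, Int.cast_one,
      smul_eq_mul]
    split_ifs <;> norm_num

variable {H : Type v} [NormedAddCommGroup H] [InnerProductSpace ℂ H] [CompleteSpace H]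

/-- The joint similarity. -/
theorem sim (D : GDec z t i0 v) (u : B →ₗ[ℂ] (H →L[ℂ] H)) (hu : IsHom u) {c : ℝ} (hc : 0 ≤ c)
    (hb : ∀ b, ‖u b‖ ≤ c * ‖b‖) :
    ∃ S S' : H →L[ℂ] H, S * S' = 1 ∧ S' * S = 1 ∧ (∀ b, ‖S * u b * S'‖ ≤ c * ‖b‖) ∧
      (∀ g ∈ unitary B, ∀ ξ, ‖S (u g ξ)‖ ≤ c * ‖ξ‖) ∧
      (∀ g ∈ unitary B, ∀ ξ, ‖u g ξ‖ ≤ c * ‖S ξ‖) ∧
      (∀ i, star (S * u (t i) * S') = S * u (star (t i)) * S') ∧
      star (S * u v * S') = S * u (star v) * S' := by
  have hn1 : ∀ g ∈ unitary B, ‖u g‖ ≤ c := by
    intro g hg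
    refine (hb g).trans ?_
    have := mul_le_mul_of_nonneg_left (H294R2.Kad2.norm_le_one_of_unitary hg) hc
    simpa using this
  set U : GI n → (H →L[ℂ] H) := fun g => u (UB z t i0 v g) with hU
  have hUm := D.UB_unitary
  have hinv1 : ∀ g, u (star (UB z t i0 v g)) * U g = 1 := by
    intro g
    change u (star (UB z t i0 v g)) * u (UB z t i0 v g) = 1
    rw [← hu.mul, (Unitary.mem_iff.mp (hUm g)).1, hu.one]
  have hinv2 : ∀ g, U g * u (star (UB z t i0 v g)) = 1 := by
    intro g
    change u (UB z t i0 v g) * u (star (UB z t i0 v g)) = 1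
    rw [← hu.mul, (Unitary.mem_iff.mp (hUm g)).2, hu.one]
  obtain ⟨S, S', i1, i2, hS, hstar⟩ := unitarize U hc
    (fun g => ⟨u (star (UB z t i0 v g)), hinv1 g, hinv2 g, hn1 _ (Unitary.star_mem (hUm g))⟩)
    (fun h => ⟨Equiv.prodCongr
        (Equiv.ofBijective (rmul h.1.1 h.1.2)
          ((Finite.injective_iff_bijective).mp (rmul_inj h.1.1 h.1.2)))
        (Equiv.ofBijective (rmul h.2.1 h.2.2)
          ((Finite.injective_iff_bijective).mp (rmul_inj h.2.1 h.2.2))), fun g => by
        change u (UB z t i0 v _) = u (UB z t i0 v g) * u (UB z t i0 v h)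
        rw [← hu.mul, D.UB_mul]
        rfl⟩)
  have hmulv : ∀ a b ξ, u (a * b) ξ = u a (u b ξ) := by
    intro a b ξ
    rw [hu.mul]
    rfl
  refine ⟨S, S', i1, i2, ?_, ?_, ?_, ?_, ?_⟩
  · intro b
    refine norm_S_conj hS i1 (u b) (by positivity) fun g ξ => ?_
    have e : u (UB z t i0 v g) (u b ξ) =
        u (UB z t i0 v g * b * star (UB z t i0 v g)) (u (UB z t i0 v g) ξ) := by
      rw [← hmulv, ← hmulv, mul_assoc, mul_assoc, (Unitary.mem_iff.mp (hUm g)).1, mul_one]
    change ‖u (UB z t i0 v g) (u b ξ)‖ ≤ c * ‖b‖ * ‖u (UB z t i0 v g) ξ‖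
    rw [e]
    refine ((u _).le_opNorm _).trans (mul_le_mul_of_nonneg_right ?_ (norm_nonneg _))
    refine (hb _).trans (mul_le_mul_of_nonneg_left ?_ hc)
    have h1 := H294R2.Kad2.norm_le_one_of_unitary (hUm g)
    have h2 := H294R2.Kad2.norm_le_one_of_unitary (Unitary.star_mem (hUm g))
    calc ‖UB z t i0 v g * b * star (UB z t i0 v g)‖
        ≤ ‖UB z t i0 v g‖ * ‖b‖ * ‖star (UB z t i0 v g)‖ :=
          (norm_mul_le _ _).trans (mul_le_mul_of_nonneg_right (norm_mul_le _ _) (norm_nonneg _))
      _ ≤ 1 * ‖b‖ * 1 := by gcongr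
      _ = ‖b‖ := by ring
  · intro g hg ξ
    refine norm_S_mul hS (u g) hc (fun h ξ => ?_) ξ
    change ‖u (UB z t i0 v h) (u g ξ)‖ ≤ c * ‖ξ‖
    rw [← hmulv]
    refine ((u _).le_opNorm _).trans (mul_le_mul_of_nonneg_right ?_ (norm_nonneg _))
    exact hn1 _ (mul_mem (hUm h) hg)
  · intro g hg ξ
    refine norm_le_S hS (u g ξ) hc ξ fun h => ?_
    have e : u g ξ = u (g * star (UB z t i0 v h)) (u (UB z t i0 v h) ξ) := by
      rw [← hmulv, mul_assoc, (Unitary.mem_iff.mp (hUm h)).1, mul_one]
    change ‖u g ξ‖ ≤ c * ‖u (UB z t i0 v h) ξ‖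
    rw [e]
    refine ((u _).le_opNorm _).trans (mul_le_mul_of_nonneg_right ?_ (norm_nonneg _))
    exact hn1 _ (mul_mem hg (Unitary.star_mem (hUm h)))
  all_goals
    have hP : ∀ g, star (S * u (UB z t i0 v g) * S') = S * u (star (UB z t i0 v g)) * S' :=
      fun g => hstar g _ (hinv2 g)
    have hadd : ∀ x y : B, star (S * u x * S') = S * u (star x) * S' →
        star (S * u y * S') = S * u (star y) * S' →
        star (S * u (x + y) * S') = S * u (star (x + y)) * S' := by
      intro x y hx hy
      rw [map_add, mul_add, add_mul, star_add, hx, hy, star_add, map_add, mul_add, add_mul]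
    have hsmul : ∀ (a : ℂ) (x : B), star (S * u x * S') = S * u (star x) * S' →
        star (S * u (a • x) * S') = S * u (star (a • x)) * S' := by
      intro a x hx
      rw [map_smul, mul_smul_comm, smul_mul_assoc, star_smul, hx, star_smul, map_smul,
        mul_smul_comm, smul_mul_assoc]
    have hW : ∀ a b, star (S * u (wf t v a * star (wf t v b)) * S') =
        S * u (star (wf t v a * star (wf t v b))) * S' := by
      intro a b
      have e : wf t v a * star (wf t v b) = (1 / 2 : ℂ) • (
          UB z t i0 v ((Equiv.swap a b, fun _ => 1), (1, fun _ => 1)) + (-1 : ℂ) •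
          UB z t i0 v ((Equiv.swap a b, Function.update (fun _ => 1) a (-1)), (1, fun _ => 1))) := by
        rw [← mu_single, hsingle, mu_smul, mu_add, mu_smul]
        unfold UB
        congr 1
        rw [neg_one_smul, neg_one_smul]
        abel
      rw [e]
      exact hsmul _ _ (hadd _ _ (hP _) (hsmul _ _ (hP _)))
    have hY : ∀ a b, star (S * u (yf t i0 v a * star (yf t i0 v b)) * S') =
        S * u (star (yf t i0 v a * star (yf t i0 v b))) * S' := by
      intro a b
      have e : yf t i0 v a * star (yf t i0 v b) = (1 / 2 : ℂ) • (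
          UB z t i0 v ((1, fun _ => 1), (Equiv.swap a b, fun _ => 1)) + (-1 : ℂ) •
          UB z t i0 v ((1, fun _ => 1), (Equiv.swap a b, Function.update (fun _ => 1) a (-1)))) := by
        rw [← mu_single, hsingle, mu_smul, mu_add, mu_smul]
        unfold UB
        congr 1
        rw [neg_one_smul, neg_one_smul]
        abel
      rw [e]
      exact hsmul _ _ (hadd _ _ (hP _) (hsmul _ _ (hP _)))
  · intro i
    have e : t i = wf t v (some i) * star (wf t v (some i0)) +
        yf t i0 v i * star (yf t i0 v i0) := by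
      simp only [wf, yf]
      rw [star_mul, star_mul, D.qy.1, D.fp.1]
      have e3 : t i * v * (star v * t i0) +
          t i * (t i0 - v * star v) * ((t i0 - v * star v) * t i0) =
          t i * (v * star v + (t i0 - v * star v) * (t i0 - v * star v)) * t i0 := by
        noncomm_ring
      rw [e3, D.qy.2]
      have e4 : v * star v + (t i0 - v * star v) = t i0 := by abel
      rw [e4, D.tf, D.tf]
    conv_lhs => rw [e]
    conv_rhs => rw [e]
    exact hadd _ _ (hW _ _) (hY _ _)
  · have e : v = wf t v (some i0) * star (wf t v none) := by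
      simp only [wf]
      rw [D.rp.1, D.fv, D.vr]
    conv_lhs => rw [e]
    conv_rhs => rw [e]
    exact hW _ _

end GDec

end gd

end Pool.Agent.Y784.KS
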