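import Mathlib
import Pool.Agent.Y784.KS.MU
import Pool.Agent.H711R2.KG.G1

/-! The level bound in fibre algebras for homomorphisms that preserve adjoints on the matrix
units. -/

open scoped ComplexOrder InnerProductSpace ComplexConjugate
open Finset

noncomputable section

namespace Pool.Agent.Y784.KS

open H759R2.Kad H711R2.KG H711R2.KG.P_C5 H711R2.KG.P_C6

universe u v

section psi

variable {B : Type u} [CStarAlgebra B] {κ : Type} [Fintype κ]

theorem psiK_mul (V : κ → B) (hV : ∑ a, star (V a) * V a = 1) (a b : κ) (x y : B) :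
    ∑ c, V a * x * star (V c) * (V c * y * star (V b)) = V a * (x * y) * star (V b) := by
  have h : ∀ c, V a * x * star (V c) * (V c * y * star (V b)) =
      V a * x * (star (V c) * V c) * (y * star (V b)) := fun c => by
    simp only [mul_assoc]
  rw [Finset.sum_congr rfl fun c _ => h c, ← Finset.sum_mul, ← Finset.mul_sum, hV]
  simp only [mul_assoc, one_mul]

/-- The map `X ↦ (V_a X_ij V_b*)`. -/
def PsiK (V : κ → B) (hV : ∑ a, star (V a) * V a = 1) (m : ℕ) :
    CStarMatrix (Fin m) (Fin m) B →⋆ₙₐ[ℂ]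
      CStarMatrix (κ × Fin m) (κ × Fin m) B where
  toFun X := CStarMatrix.ofMatrix fun p q => V p.1 * X p.2 q.2 * star (V q.1)
  map_smul' c X := by
    ext p q
    simp [CStarMatrix.ofMatrix_apply]
  map_zero' := by
    ext p q
    simp [CStarMatrix.ofMatrix_apply]
  map_add' X Y := by
    ext p q
    simp [CStarMatrix.ofMatrix_apply, mul_add, add_mul]
  map_mul' X Y := by
    ext p q
    rw [CStarMatrix.mul_apply]
    simp only [CStarMatrix.ofMatrix_apply]
    rw [Fintype.sum_prod_type, Finset.sum_comm, CStarMatrix.mul_apply, Finset.mul_sum,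
      Finset.sum_mul]
    exact Finset.sum_congr rfl fun k _ => (psiK_mul V hV p.1 q.1 (X p.2 k) (Y k q.2)).symm
  map_star' X := by
    ext p q
    rw [CStarMatrix.star_apply]
    simp only [CStarMatrix.ofMatrix_apply, star_mul, star_star, CStarMatrix.star_apply, mul_assoc]

theorem psiK_apply (V : κ → B) (hV : ∑ a, star (V a) * V a = 1) (m : ℕ)
    (X : CStarMatrix (Fin m) (Fin m) B) (p q : κ × Fin m) :
    PsiK V hV m X p q = V p.1 * X p.2 q.2 * star (V q.1) := rfl

theorem psiK_norm [PartialOrder B] [StarOrderedRing B] [DecidableEq κ] (V : κ → B) (hV : ∑ a, star (V a) * V a = 1) (m : ℕ)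
    (X : CStarMatrix (Fin m) (Fin m) B) : ‖PsiK V hV m X‖ ≤ ‖X‖ :=
  NonUnitalStarAlgHom.norm_apply_le (PsiK V hV m) X

end psi

theorem inner_self_sq {E : Type*} [NormedAddCommGroup E] [InnerProductSpace ℂ E] (x : E) :
    ⟪x, x⟫_ℂ = ((‖x‖ ^ 2 : ℝ) : ℂ) := by
  rw [inner_self_eq_norm_sq_to_K]
  push_cast
  rfl

/-- The main inequality in general form: a bound for amplifications at large levels. -/
def MainBd (F : ℝ → ℝ) (G : ℕ → ℕ) : Prop :=
  ∀ (B : Type u) [CStarAlgebra B] [PartialOrder B] [StarOrderedRing B]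
    (K : Type v) [NormedAddCommGroup K] [InnerProductSpace ℂ K] [CompleteSpace K]
    (w : B →ₗ[ℂ] (K →L[ℂ] K)) (τ : B →ₗ[ℂ] ℂ), IsHom w → IsTracialState τ → HasDixmier τ →
    HasOrthA τ → ∀ γ : ℝ, 1 ≤ γ → (∀ b, ‖w b‖ ≤ γ * ‖b‖) →
    ∀ L m : ℕ, 0 < m → G m ≤ L → LvlBd w L γ → LvlBd w (m * L) (F γ)

theorem main_KAm : KA_main.{u, v} := by
  have hgt : St_gt.{u, v} := main_gt
  have hcol : T2_col.{u, v} := prove2_col hgt
  have hdix : T2_dix.{u, v} := prove2_dix prove_dix
  have hphtr : St_phtr.{u} := prove_phtr prove_orth prove_expand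
  have hdet : T2_det.{u, v} := prove2_det
  have hfam : KA_fam.{u} := proveA_fam proveA_fam1
  have hword : K_word.{u} := prove3_word prove3_indep prove3_avgone
  have hgram : K_gram.{u} := prove3_gram hword prove3_path prove3_entries
  have hrand : KA_rand.{u} := proveA_rand hfam prove3_adj hgram
  have hblock : K_block.{u, v} := prove3_block hgt hcol hdix
  have hembed : K_embed.{u, v} := prove3_embed hblock
  have hwcol : K_wcol.{u, v} := prove3_wcol hcol hdix prove3_level
  have hgen : K_generic.{u, v} := prove3_generic hcol hdix hwcol (prove3_fourier prove3_expand)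
    prove3_pars
  have horb : K_orbit.{u, v} := prove3_orbit hgen prove3_crude prove3_vmap hdix
  have hunit : KA_unit.{u, v} := proveA_unit hrand hembed hdet hphtr horb prove3_crude hdix
  exact proveA_main hunit prove3_flat

theorem mainBd7 : MainBd.{u, v} (fun γ => 216 * γ ^ 7) (fun m => 25920 * m ^ 11) :=
  main_KAm

section fib

variable {B : Type u} [CStarAlgebra B] [PartialOrder B] [StarOrderedRing B]

theorem trace_pos {n : ℕ} {t : Fin n → B} {i0 : Fin n} {v : B} (D : GDec (1 : B) t i0 v)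
    {τ : B →ₗ[ℂ] ℂ} (hτ : IsTracialState τ) (hT : T_sub.{u}) : 0 < (τ (t i0)).re := by
  obtain ⟨hT1, hT2, hT3, -⟩ := hT B τ hτ
  have h1 : (τ (∑ i, t i * star (t i) + star v * v)).re = 1 := by rw [D.sum, hτ.one]; simp
  rw [map_add, Complex.add_re, P_B12.re_sum] at h1
  have h2 : ∀ i, (τ (t i * star (t i))).re = (τ (t i0)).re := by
    intro i
    rw [hτ.comm, D.tt, if_pos rfl]
  rw [Finset.sum_congr rfl fun i _ => h2 i] at h1
  have h3 : (τ (star v * v)).re ≤ (τ (t i0)).re := hT2 _ _ D.rp D.fp ⟨v, rfl, D.fv⟩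
  have h4 := (hT1 _ D.fp).1
  rw [Finset.sum_const, Finset.card_univ, nsmul_eq_mul] at h1
  by_contra hcon
  push Not at hcon
  have h5 : (τ (t i0)).re = 0 := le_antisymm hcon h4
  rw [h5] at h1 h3
  rw [mul_zero, zero_add] at h1
  linarith

theorem not_small {n : ℕ} {t : Fin n → B} {i0 : Fin n} {v : B} (D : GDec (1 : B) t i0 v)
    (hF : IsFib B) {τ : B →ₗ[ℂ] ℂ} (hτ : IsTracialState τ) (hbig : ∀ K : ℕ, ¬ Small (1 : B) K)
    (hT : T_sub.{u}) (htrs : B_trsmall.{u}) (hsum : B_minsum.{u}) (K : ℕ) :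
    ¬ Small (t i0) K := by
  intro hK
  have hpos := trace_pos D hτ hT
  have hne : t i0 ≠ 0 := by
    intro h0
    rw [h0, map_zero] at hpos
    simp at hpos
  obtain ⟨n, g', -, -, hg's, hg'm⟩ := hsum B (t i0) K D.fp hne hK
  have : (τ (∑ j, g' j)).re ≠ 0 := by rw [hg's]; exact hpos.ne'
  obtain ⟨j, hj⟩ := P_B12.exists_ne τ g' this
  obtain ⟨K', hK'⟩ := htrs B hF τ hτ _ (hg'm j) hj
  exact hbig K' hK'

variable {H : Type v} [NormedAddCommGroup H] [InnerProductSpace ℂ H] [CompleteSpace H]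

/-- Fibre algebras with a tracial state which are not small. -/
theorem fib2 {F : ℝ → ℝ} {G : ℕ → ℕ} (hmain : MainBd.{u, v} F G) (hF0 : ∀ γ : ℝ, 1 ≤ γ → 0 ≤ F γ)
    (hB : IsFib B) {τ : B →ₗ[ℂ] ℂ} (hτ : IsTracialState τ)
    (hbig : ∀ K : ℕ, ¬ Small (1 : B) K) {n : ℕ} {t : Fin n → B} {i0 : Fin n} {v : B}
    (D : GDec (1 : B) t i0 v) {m : ℕ} (hm : 0 < m) (hn : G (2 * m) ≤ n)
    (u : B →ₗ[ℂ] (H →L[ℂ] H)) (hu : IsHom u) {c : ℝ} (hc : 1 ≤ c) (hb : ∀ b, ‖u b‖ ≤ c * ‖b‖)
    (hst : ∀ i, star (u (t i)) = u (star (t i))) (hsv : star (u v) = u (star v)) :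
    LvlBd u m (F c) := by
  have hc0 : 0 ≤ c := by linarith
  have hn0 : 0 < n := i0.pos
  set f : B := t i0 with hf
  have hfp : IsPrj f := D.fp
  have hpos := trace_pos D hτ p_T_sub
  have hne : f ≠ 0 := by
    intro h0
    rw [← hf, h0, map_zero] at hpos
    simp at hpos
  have hns := not_small D hB hτ hbig p_T_sub (p_B_trsmall p_B_minle p_T_sub) p_B_minsum
  obtain ⟨C, _, _, _, ι, hι⟩ := p_C_exists B f hfp
  obtain ⟨hC, hCs⟩ := p_C_fib p_C_ord B C ι f hι hne hB
  obtain ⟨τ', hτ'⟩ := p_C_tr B C ι f τ hι hτ hpos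
  have hD : HasDixmier τ' := p_B_dix p_B_step C hC τ' hτ'
  have hO : HasOrthA τ' := p_B_orth C τ' hτ'
    (main_dich C hC τ' hτ' fun K hK => hns K (hCs K hK))
  have hel : ∀ x, f * ι x = ι x := by
    intro x
    rw [← hι.one, ← map_mul, one_mul]
  have her : ∀ x, ι x * f = ι x := by
    intro x
    rw [← hι.one, ← map_mul, mul_one]
  have hmulv : ∀ a b (ξ : H), u (a * b) ξ = u a (u b ξ) := by
    intro a b ξ
    rw [hu.mul]
    rfl
  -- the space of the corner
  let K : Submodule ℂ H := LinearMap.ker ((u f - 1 : H →L[ℂ] H) : H →ₗ[ℂ] H)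
  have hmem : ∀ x, x ∈ K ↔ u f x = x := by
    intro x
    change (u f - 1 : H →L[ℂ] H) x = 0 ↔ _
    rw [sub_apply, one_apply_eq_self, sub_eq_zero]
  have hclosed : IsClosed (K : Set H) := (u f - 1 : H →L[ℂ] H).isClosed_ker
  haveI : CompleteSpace K := hclosed.completeSpace_coe
  have hcod : ∀ b, f * b = b → ∀ ξ : H, u b ξ ∈ K := by
    intro b hfb ξ
    rw [hmem, ← hmulv, hfb]
  let w : C →ₗ[ℂ] (K →L[ℂ] K) :=
    { toFun := fun x => ((u (ι x)).comp K.subtypeL).codRestrict K
        (fun ξ => hcod _ (hel x) _)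
      map_add' := by
        intro a b
        ext x
        change u (ι (a + b)) (x : H) = u (ι a) (x : H) + u (ι b) (x : H)
        rw [map_add, map_add]
        rfl
      map_smul' := by
        intro r a
        ext x
        change u (ι (r • a)) (x : H) = r • u (ι a) (x : H)
        rw [map_smul, map_smul]
        rfl }
  have hw : ∀ a (x : K), ((w a x : K) : H) = u (ι a) (x : H) := fun a x => rfl
  have hwh : IsHom w := by
    constructor
    · intro a b
      ext x
      change u (ι (a * b)) (x : H) = u (ι a) (u (ι b) (x : H))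
      rw [map_mul, hmulv]
    · ext x
      change u (ι 1) (x : H) = x
      rw [hι.one]
      exact (hmem x).1 x.2
  have hwb : ∀ b, ‖w b‖ ≤ c * ‖b‖ := by
    intro b
    refine ContinuousLinearMap.opNorm_le_bound _ (by positivity) fun x => ?_
    change ‖u (ι b) (x : H)‖ ≤ c * ‖b‖ * ‖(x : H)‖
    refine ((u (ι b)).le_opNorm _).trans (mul_le_mul_of_nonneg_right ?_ (norm_nonneg _))
    rw [← hι.norm b]
    exact hb _
  -- the isometry from `K^n` to `H`
  let VL : HH (Fin n) K → H := fun ξ => ∑ i, u (t i) (ξ i : H)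
  have hVL : ∀ ξ, ‖VL ξ‖ = ‖ξ‖ := by
    intro ξ
    have h1 : ‖VL ξ‖ ^ 2 = ‖ξ‖ ^ 2 := by
      have h2 : (⟪VL ξ, VL ξ⟫_ℂ) = ∑ i, ⟪(ξ i : H), (ξ i : H)⟫_ℂ := by
        change ⟪∑ i, u (t i) (ξ i : H), ∑ i, u (t i) (ξ i : H)⟫_ℂ = _
        rw [sum_inner]
        refine Finset.sum_congr rfl fun i _ => ?_
        rw [inner_sum, Finset.sum_eq_single i]
        · have h3 : ⟪u (t i) (ξ i : H), u (t i) (ξ i : H)⟫_ℂ =
              ⟪(ξ i : H), (star (u (t i)) * u (t i)) (ξ i : H)⟫_ℂ := by
            rw [ContinuousLinearMap.star_eq_adjoint]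
            change _ = ⟪(ξ i : H), ContinuousLinearMap.adjoint (u (t i)) (u (t i) (ξ i : H))⟫_ℂ
            rw [ContinuousLinearMap.adjoint_inner_right]
          rw [h3, hst, ← hu.mul, D.tt, if_pos rfl]
          have : u (t i0) (ξ i : H) = ξ i := (hmem _).1 (ξ i).2
          rw [this]
        · intro j _ hj
          have h3 : ⟪u (t i) (ξ i : H), u (t j) (ξ j : H)⟫_ℂ =
              ⟪(ξ i : H), (star (u (t i)) * u (t j)) (ξ j : H)⟫_ℂ := by
            rw [ContinuousLinearMap.star_eq_adjoint]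
            change _ = ⟪(ξ i : H), ContinuousLinearMap.adjoint (u (t i)) (u (t j) (ξ j : H))⟫_ℂ
            rw [ContinuousLinearMap.adjoint_inner_right]
          rw [h3, hst, ← hu.mul, D.tt, if_neg (Ne.symm hj), map_zero]
          simp
        · simp
      rw [inner_self_sq] at h2
      have h4 : ∀ i, ⟪(ξ i : H), (ξ i : H)⟫_ℂ = ((‖ξ i‖ ^ 2 : ℝ) : ℂ) := by
        intro i
        rw [inner_self_sq]
        rfl
      rw [Finset.sum_congr rfl fun i _ => h4 i, ← Complex.ofReal_sum] at h2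
      rw [PiLp.norm_sq_eq_of_L2]
      exact Complex.ofReal_injective h2
    exact (sq_eq_sq₀ (norm_nonneg _) (norm_nonneg _)).1 h1
  have hlvl : LvlBd w n c := by
    intro Y
    refine ContinuousLinearMap.opNorm_le_bound _ (by positivity) fun ξ => ?_
    set b : B := Phi t f ι D.tt hel Y with hbdef
    have hbv : b = ∑ i, ∑ j, t i * ι (Y i j) * star (t j) := rfl
    have e1 : u b (VL ξ) = VL (amp w (Fin n) Y ξ) := by
      change u b (∑ i, u (t i) (ξ i : H)) = ∑ i, u (t i) ((amp w (Fin n) Y ξ i : K) : H)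
      have e2 : ∀ k, b * t k = ∑ i, t i * ι (Y i k) := by
        intro k
        rw [hbv, Finset.sum_mul]
        refine Finset.sum_congr rfl fun i _ => ?_
        rw [Finset.sum_mul, Finset.sum_eq_single k]
        · have : t i * ι (Y i k) * star (t k) * t k = t i * (ι (Y i k) * (star (t k) * t k)) := by
            noncomm_ring
          rw [this, D.tt, if_pos rfl, her]
        · intro j _ hj
          rw [mul_assoc, D.tt, if_neg hj, mul_zero]
        · simp
      rw [map_sum]
      have e3 : ∀ k, u b (u (t k) (ξ k : H)) = ∑ i, u (t i) (u (ι (Y i k)) (ξ k : H)) := by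
        intro k
        rw [← hmulv, e2, map_sum, _root_.sum_apply]
        exact Finset.sum_congr rfl fun i _ => hmulv _ _ _
      rw [Finset.sum_congr rfl fun k _ => e3 k, Finset.sum_comm]
      refine Finset.sum_congr rfl fun i _ => ?_
      rw [← map_sum]
      congr 1
      rw [amp_apply, Submodule.coe_sum]
      rfl
    calc ‖amp w (Fin n) Y ξ‖ = ‖u b (VL ξ)‖ := by rw [e1, hVL]
      _ ≤ ‖u b‖ * ‖VL ξ‖ := (u b).le_opNorm _
      _ ≤ c * ‖Y‖ * ‖ξ‖ := by
        rw [hVL]
        refine mul_le_mul_of_nonneg_right ((hb b).trans ?_) (norm_nonneg _)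
        exact mul_le_mul_of_nonneg_left (NonUnitalStarAlgHom.norm_apply_le _ Y) hc0
  have hbig' : LvlBd w (2 * m * n) (F c) :=
    hmain C K w τ' hwh hτ' hD hO c hc hwb n (2 * m) (by positivity) hn hlvl
  -- the family `V`
  let V : Option (Fin n) → B := fun a => match a with
    | none => v
    | some i => star (t i)
  have hV : ∑ a, star (V a) * V a = 1 := by
    rw [Fintype.sum_option, ← D.sum, add_comm]
    congr 1
    refine Finset.sum_congr rfl fun i _ => ?_
    change star (star (t i)) * star (t i) = _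
    rw [star_star]
  have hfV : ∀ a, f * V a = V a := by
    rintro (_ | i)
    · exact D.fv
    · change f * star (t i) = star (t i)
      have := congrArg star (D.tf i)
      rwa [star_mul, hfp.1] at this
  have hsV : ∀ a, star (u (V a)) = u (star (V a)) := by
    rintro (_ | i)
    · exact hsv
    · change star (u (star (t i))) = u (star (star (t i)))
      rw [← hst, star_star, star_star]
  have hVf : ∀ a, star (V a) * f = star (V a) := by
    intro a
    have := congrArg star (hfV a)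
    rwa [star_mul, hfp.1] at this
  intro X
  -- lift to `C`
  have hent : ∀ p q : Option (Fin n) × Fin m, ∃ x : C, ι x = PsiK V hV m X p q := by
    intro p q
    apply hι.surj
    rw [psiK_apply]
    calc f * (V p.1 * X p.2 q.2 * star (V q.1)) * f =
        (f * V p.1) * X p.2 q.2 * (star (V q.1) * f) := by noncomm_ring
      _ = _ := by rw [hfV, hVf]
  choose Z hZ using hent
  let Xh : CStarMatrix (Option (Fin n) × Fin m) (Option (Fin n) × Fin m) C :=
    CStarMatrix.ofMatrix Z
  have hXh : ‖Xh‖ ≤ ‖X‖ := by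
    rw [← map_norm ι hι.norm]
    have : CStarMatrix.mapₙₐ (n := Option (Fin n) × Fin m) ι Xh = PsiK V hV m X := by
      ext p q
      exact hZ p q
    rw [this]
    exact psiK_norm V hV m X
  have hcard : Fintype.card (Option (Fin n) × Fin m) ≤ 2 * m * n := by
    rw [Fintype.card_prod, Fintype.card_option, Fintype.card_fin, Fintype.card_fin]
    nlinarith
  have hlv := prove3_level C K w (2 * m * n) (F c) (hF0 c hc) hbig'
    (Option (Fin n) × Fin m) hcard Xh
  refine ContinuousLinearMap.opNorm_le_bound _ (mul_nonneg (hF0 c hc) (norm_nonneg _)) fun ξ => ?_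
  -- the isometry `J`
  let J : HH (Fin m) H → HH (Option (Fin n) × Fin m) K := fun ζ =>
    WithLp.toLp 2 fun p => ⟨u (V p.1) (ζ p.2), hcod _ (hfV _) _⟩
  have hJa : ∀ ζ p, ((J ζ p : K) : H) = u (V p.1) (ζ p.2) := fun ζ p => rfl
  have hJ : ∀ ζ, ‖J ζ‖ = ‖ζ‖ := by
    intro ζ
    have h1 : ‖J ζ‖ ^ 2 = ‖ζ‖ ^ 2 := by
      rw [PiLp.norm_sq_eq_of_L2, PiLp.norm_sq_eq_of_L2, Fintype.sum_prod_type, Finset.sum_comm]
      refine Finset.sum_congr rfl fun i _ => ?_
      have h2 : ∀ a, ((‖J ζ (a, i)‖ ^ 2 : ℝ) : ℂ) =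
          ⟪ζ i, u (star (V a) * V a) (ζ i)⟫_ℂ := by
        intro a
        have e1 : ‖J ζ (a, i)‖ = ‖u (V a) (ζ i)‖ := rfl
        rw [e1, hmulv, ← hsV, ContinuousLinearMap.star_eq_adjoint,
          ContinuousLinearMap.adjoint_inner_right, inner_self_eq_norm_sq_to_K]
        push_cast
        rfl
      have h3 : ((∑ a, ‖J ζ (a, i)‖ ^ 2 : ℝ) : ℂ) = ((‖ζ i‖ ^ 2 : ℝ) : ℂ) := by
        push_cast
        have h4 : ∀ a, ((‖J ζ (a, i)‖ : ℂ)) ^ 2 = ⟪ζ i, u (star (V a) * V a) (ζ i)⟫_ℂ := by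
          intro a
          rw [← h2]
          push_cast
          rfl
        rw [Finset.sum_congr rfl fun a _ => h4 a, ← inner_sum]
        have h5 : ∑ a, u (star (V a) * V a) (ζ i) = ζ i := by
          have h6 : ∑ a, u (star (V a) * V a) = 1 := by rw [← map_sum, hV, hu.one]
          have h7 := congrArg (fun T : H →L[ℂ] H => T (ζ i)) h6
          simpa using h7
        rw [h5, inner_self_eq_norm_sq_to_K]
        rfl
      exact_mod_cast h3
    exact (sq_eq_sq₀ (norm_nonneg _) (norm_nonneg _)).1 h1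
  have hint : J (amp u (Fin m) X ξ) = amp w (Option (Fin n) × Fin m) Xh (J ξ) := by
    ext p
    rw [hJa, amp_apply, amp_apply, Submodule.coe_sum, map_sum, Fintype.sum_prod_type,
      Finset.sum_comm]
    refine Finset.sum_congr rfl fun j _ => ?_
    have e1 : ∀ a, ((w (Xh p (a, j)) (J ξ (a, j)) : K) : H) =
        u (V p.1 * X p.2 j * (star (V a) * V a)) (ξ j) := by
      intro a
      rw [hw, hJa]
      have : ι (Xh p (a, j)) = V p.1 * X p.2 j * star (V a) := hZ p (a, j)
      rw [this, ← hmulv, mul_assoc]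
    rw [Finset.sum_congr rfl fun a _ => e1 a]
    have e2 : ∑ a, u (V p.1 * X p.2 j * (star (V a) * V a)) = u (V p.1 * X p.2 j) := by
      rw [← map_sum, ← Finset.mul_sum, hV, mul_one]
    have e3 : ∑ a, (u (V p.1 * X p.2 j * (star (V a) * V a))) (ξ j) =
        u (V p.1 * X p.2 j) (ξ j) := by
      rw [← e2, _root_.sum_apply]
    rw [e3, hmulv]
  calc ‖amp u (Fin m) X ξ‖ = ‖amp w (Option (Fin n) × Fin m) Xh (J ξ)‖ := by rw [← hint, hJ]
    _ ≤ ‖amp w (Option (Fin n) × Fin m) Xh‖ * ‖J ξ‖ := ContinuousLinearMap.le_opNorm _ _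
    _ ≤ F c * ‖X‖ * ‖ξ‖ := by
      rw [hJ]
      refine mul_le_mul_of_nonneg_right (hlv.trans ?_) (norm_nonneg _)
      exact mul_le_mul_of_nonneg_left hXh (hF0 c hc)

end fib

end Pool.Agent.Y784.KS
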