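import Mathlib
import Pool.Agent.Y784.KS.MU
import Pool.Agent.H711R2.KG.P.B11
import Pool.Agent.H711R2.KG.P.B12
import Pool.Agent.H711R2.KG.P.Q2

/-! Matrix units with a small remainder in von Neumann algebras, and their images in fibres. -/

open scoped ComplexOrder InnerProductSpace ComplexConjugate
open Finset

noncomputable section

namespace Pool.Agent.Y784.KS

open H759R2.Kad H711R2.KG H711R2.KG.P_B11

universe u v

section ab

variable {M : Type u} [CStarAlgebra M]

/-- Abelian projection (in the form that is used). -/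
def IsAb (g : M) : Prop :=
  IsPrj g ∧ ∀ p, IsPrj p → g * p = p → ∃ z, IsPrj z ∧ (∀ a, z * a = a * z) ∧ p = z * g

theorem ab_cj {e v : M} (h : Half e v) {g : M} (hg : IsAb g) (h1 : star v * v * g = g) :
    IsAb (cj v g) := by
  have hg1 : g * (star v * v) = g := right_of hg.1 h.p1 h1
  refine ⟨prj_cj hg.1 h1, ?_⟩
  intro p hp hgp
  have he2 : v * star v * cj v g = cj v g := by
    unfold cj
    calc v * star v * (v * g * star v) = v * (star v * v * g) * star v := by
          simp only [mul_assoc]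
      _ = v * g * star v := by rw [h1]
  have he2p : v * star v * p = p := by rw [← hgp, ← mul_assoc, he2]
  have hpe2 : p * (v * star v) = p := by
    have : star (v * star v * p) = star p := by rw [he2p]
    rwa [star_mul, star_mul, star_star, hp.1] at this
  have hp' : IsPrj (star v * p * v) := by
    refine ⟨?_, ?_⟩
    · rw [star_mul, star_mul, star_star, hp.1]
      simp only [mul_assoc]
    · calc star v * p * v * (star v * p * v) = star v * (p * (v * star v)) * p * v := by
            simp only [mul_assoc]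
        _ = star v * p * v := by rw [hpe2, mul_assoc (star v) p p, hp.2]
  have hgp' : g * (star v * p * v) = star v * p * v := by
    have : star v * (cj v g * p) * v = star v * p * v := by rw [hgp]
    rw [← this]
    unfold cj
    calc g * (star v * (v * g * star v * p) * v)
        = g * (star v * v) * g * star v * p * v := by simp only [mul_assoc]
      _ = star v * v * g * star v * p * v := by rw [hg1, hg.1.2, h1]
      _ = star v * (v * g * star v * p) * v := by simp only [mul_assoc]
  have hpp : p = v * (star v * p * v) * star v := by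
    calc p = v * star v * p * (v * star v) := by rw [he2p, hpe2]
      _ = v * (star v * p * v) * star v := by simp only [mul_assoc]
  obtain ⟨z, hz1, hz2, hz3⟩ := hg.2 _ hp' hgp'
  refine ⟨z, hz1, hz2, ?_⟩
  rw [hpp, hz3]
  unfold cj
  calc v * (z * g) * star v = (v * z) * g * star v := by simp only [mul_assoc]
    _ = z * (v * g * star v) := by rw [← hz2 v]; simp only [mul_assoc]

end ab

section vn

variable {M : Type u} [CStarAlgebra M] [PartialOrder M] [StarOrderedRing M]

theorem auxM (hM : IsVN M) (k : ℕ) : ∀ e : M, IsPrj e →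
    ∃ (I : Type) (_ : Fintype I) (J : Type) (_ : Fintype J) (f : I → M) (g : J → M),
      Fintype.card I = 2 ^ k ∧ OrthIn e f ∧ OrthIn e g ∧ (∀ i j, f i * g j = 0) ∧
      ∑ i, f i + ∑ j, g j = e ∧ (∀ i j, Eqv (f i) (f j)) ∧ ∀ j, IsAb (g j) := by
  induction k with
  | zero =>
    intro e he
    refine ⟨Unit, inferInstance, Empty, inferInstance, fun _ => e, fun x => x.elim, by simp,
      ⟨fun _ => ⟨he, he.2⟩, fun i j hij => absurd rfl hij⟩,
      ⟨fun x => x.elim, fun x => x.elim⟩, fun _ x => x.elim, by simp,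
      fun _ _ => eqv_refl he, fun x => x.elim⟩
  | succ k ih =>
    intro e he
    obtain ⟨v, hv1, hv2, hv3, hv4, hv5⟩ := hM.half e he
    have h : Half e v := ⟨he, hv1, hv2, hv3, hv4⟩
    obtain ⟨I, _, J, _, f, g, hcard, hf, hg, hfg, hsum, heqv, hmin⟩ := ih (star v * v) hv4
    have hfp : ∀ i, IsPrj (f i) := fun i => (hf.1 i).1
    have hf1 : ∀ i, star v * v * f i = f i := fun i => (hf.1 i).2
    have hf1' : ∀ i, f i * (star v * v) = f i := fun i => right_of (hfp i) h.p1 (hf1 i)
    have hgp : ∀ i, IsPrj (g i) := fun i => (hg.1 i).1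
    have hg1 : ∀ i, star v * v * g i = g i := fun i => (hg.1 i).2
    have hg1' : ∀ i, g i * (star v * v) = g i := fun i => right_of (hgp i) h.p1 (hg1 i)
    have hcj0 : cj v (0 : M) = 0 := by unfold cj; simp
    refine ⟨I ⊕ I, inferInstance, J ⊕ J ⊕ Unit, inferInstance,
      Sum.elim f (fun i => cj v (f i)),
      Sum.elim g (Sum.elim (fun j => cj v (g j)) (fun _ => e - star v * v - v * star v)),
      ?_, ⟨?_, ?_⟩, ⟨?_, ?_⟩, ?_, ?_, ?_, ?_⟩
    · rw [Fintype.card_sum, hcard, pow_succ]
      ring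
    · rintro (i | i)
      · exact ⟨hfp i, e_mul h (hf1 i)⟩
      · exact ⟨prj_cj (hfp i) (hf1 i), e_cj h _⟩
    · rintro (i | i) (j | j) hij
      · exact hf.2 i j (fun hh => hij (by rw [hh]))
      · exact mul_cj h (hf1' i) _
      · exact cj_mul' h _ (hf1 j)
      · simp only [Sum.elim_inr]
        rw [cj_mul _ (hf1 j), hf.2 i j (fun hh => hij (by rw [hh])), hcj0]
    · rintro (i | i | i)
      · exact ⟨hgp i, e_mul h (hg1 i)⟩
      · exact ⟨prj_cj (hgp i) (hg1 i), e_cj h _⟩
      · exact ⟨h.p0, h.ee0⟩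
    · rintro (i | i | i) (j | j | j) hij
      · exact hg.2 i j (fun hh => hij (by rw [hh]))
      · exact mul_cj h (hg1' i) _
      · exact mul_e0 h (hg1' i)
      · exact cj_mul' h _ (hg1 j)
      · simp only [Sum.elim_inr, Sum.elim_inl]
        rw [cj_mul _ (hg1 j), hg.2 i j (fun hh => hij (by rw [hh])), hcj0]
      · exact cj_e0 h _
      · exact e0_mul h (hg1 j)
      · exact e0_cj h _
      · exact absurd rfl hij
    · rintro (i | i) (j | j | j)
      · exact hfg i j
      · exact mul_cj h (hf1' i) _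
      · exact mul_e0 h (hf1' i)
      · exact cj_mul' h _ (hg1 j)
      · simp only [Sum.elim_inr, Sum.elim_inl]
        rw [cj_mul _ (hg1 j), hfg i j, hcj0]
      · exact cj_e0 h _
    · simp only [Fintype.sum_sum_type, Sum.elim_inl, Sum.elim_inr, Finset.univ_unique,
        Finset.sum_const, Finset.card_singleton, one_smul]
      have hc : ∑ i, cj v (f i) + ∑ j, cj v (g j) = v * star v := by
        unfold cj
        rw [← Finset.sum_mul, ← Finset.mul_sum, ← Finset.sum_mul, ← Finset.mul_sum, ← add_mul,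
          ← mul_add, hsum, h.v1]
      calc ∑ i, f i + ∑ i, cj v (f i) +
            (∑ j, g j + (∑ j, cj v (g j) + (e - star v * v - v * star v)))
          = (∑ i, f i + ∑ j, g j) + (∑ i, cj v (f i) + ∑ j, cj v (g j)) +
            (e - star v * v - v * star v) := by abel
        _ = e := by rw [hsum, hc]; abel
    · have hc : ∀ i j, Eqv (f i) (cj v (f j)) := fun i j =>
        eqv_trans (hfp i) (prj_cj (hfp j) (hf1 j)) (heqv i j) (eqv_cj (hfp j) (hf1 j))
      rintro (i | i) (j | j)
      · exact heqv i j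
      · exact hc i j
      · exact eqv_symm (hc j i)
      · exact eqv_trans (prj_cj (hfp i) (hf1 i)) (prj_cj (hfp j) (hf1 j))
          (eqv_symm (hc i i)) (hc i j)
    · rintro (j | j | j)
      · exact hmin j
      · exact ab_cj h (hmin j) (hg1 j)
      · exact ⟨h.p0, hv5⟩

/-- Repeated halving in a von Neumann algebra. -/
theorem dkM (hM : IsVN M) (k : ℕ) :
    ∃ (f : Fin (2 ^ k) → M) (N : ℕ) (g : Fin N → M),
      OrthIn 1 f ∧ OrthIn 1 g ∧ (∀ i j, f i * g j = 0) ∧ ∑ i, f i + ∑ j, g j = 1 ∧
      (∀ i j, Eqv (f i) (f j)) ∧ ∀ j, IsAb (g j) := by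
  obtain ⟨I, _, J, _, f, g, hcard, hf, hg, hfg, hsum, heqv, hmin⟩ :=
    auxM hM k 1 ⟨star_one M, one_mul 1⟩
  let a : I ≃ Fin (2 ^ k) := Fintype.equivFinOfCardEq hcard
  let b : J ≃ Fin (Fintype.card J) := Fintype.equivFin J
  refine ⟨fun i => f (a.symm i), Fintype.card J, fun j => g (b.symm j),
    ⟨fun i => hf.1 _, fun i j hij => hf.2 _ _ (fun hh => hij (a.symm.injective hh))⟩,
    ⟨fun i => hg.1 _, fun i j hij => hg.2 _ _ (fun hh => hij (b.symm.injective hh))⟩,
    fun i j => hfg _ _, ?_, fun i j => heqv _ _, fun j => hmin _⟩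
  rw [Equiv.sum_comp a.symm f, Equiv.sum_comp b.symm g]
  exact hsum

/-- In a fibre with a tracial state which is not small, `f ≾ r` is impossible. -/
theorem no_sub {B : Type u} [CStarAlgebra B] [PartialOrder B] [StarOrderedRing B] (hF : IsFib B)
    {τ : B →ₗ[ℂ] ℂ} (hτ : IsTracialState τ) (hbig : ∀ K : ℕ, ¬ Small (1 : B) K)
    (htrs : B_trsmall.{u}) (hT : T_sub.{u}) {k N : ℕ} {f : Fin (2 ^ k) → B} {g : Fin N → B}
    (hf : OrthIn 1 f) (hg : OrthIn 1 g) (hs : ∑ i, f i + ∑ j, g j = 1)
    (heq : ∀ i j, Eqv (f i) (f j)) (hmin : ∀ j, g j = 0 ∨ H711R2.KG.IsMin (g j)) (i₀ : Fin (2 ^ k)) :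
    ¬ Sub (f i₀) (∑ j, g j) := by
  intro hc
  obtain ⟨hT1, hT2, hT3, hT4⟩ := hT B τ hτ
  have h1 : IsPrj (1 : B) := ⟨star_one B, one_mul 1⟩
  obtain ⟨hr, -⟩ := hT4 1 (Fin N) g h1 hg
  set r : B := ∑ j, g j with hrdef
  have hτi : ∀ i, τ (f i) = τ (f i₀) := fun i => hT3 _ _ (heq i i₀)
  set t : ℝ := (τ (f i₀)).re with ht
  have ht0 : 0 ≤ t := (hT1 (f i₀) (hf.1 i₀).1).1
  have hr0 : 0 ≤ (τ r).re := (hT1 r hr).1
  have htot : (2 ^ k : ℝ) * t + (τ r).re = 1 := by
    have h2 : (τ (∑ i, f i + r)).re = 1 := by rw [hs, hτ.one]; simp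
    rw [map_add, Complex.add_re, P_B12.re_sum] at h2
    rw [← h2]
    congr 1
    rw [Finset.sum_congr rfl (fun i _ => by rw [hτi i])]
    simp [ht]
  have key : ∀ x : B, H711R2.KG.IsMin x → (τ x).re ≠ 0 → False := by
    intro x hx hx0
    obtain ⟨K, hK⟩ := htrs B hF τ hτ x hx hx0
    exact hbig K hK
  have hle : t ≤ (τ r).re := hT2 (f i₀) r (hf.1 i₀).1 hr hc
  have hrpos : 0 < (τ r).re := by
    have h2k : (0 : ℝ) < 2 ^ k := by positivity
    by_contra hcon
    push Not at hcon
    have h0 : (τ r).re = 0 := le_antisymm hcon hr0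
    have h0' : t = 0 := le_antisymm (h0 ▸ hle) ht0
    rw [h0, h0'] at htot
    simp at htot
  obtain ⟨j, hj⟩ := P_B12.exists_ne τ g hrpos.ne'
  rcases hmin j with h0 | h0
  · rw [h0, map_zero] at hj
    simp at hj
  · exact key _ h0 hj

/-- The decomposition of a von Neumann algebra, and its behaviour in fibres. -/
theorem gdec (hM : IsVN M) (hlift : Q_lift.{u}) (htrs : B_trsmall.{u}) (hT : T_sub.{u})
    (hfib : Q_fib.{u}) (k : ℕ) :
    ∃ (z : M) (t : Fin (2 ^ k) → M) (i0 : Fin (2 ^ k)) (v : M), GDec z t i0 v ∧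
      ∀ (B : Type u) [CStarAlgebra B] [PartialOrder B] [StarOrderedRing B] (φ : M →⋆ₐ[ℂ] B),
        Function.Surjective φ → (1 : B) ≠ 0 →
        (∀ z : M, (∀ a, z * a = a * z) → ∃ l : ℂ, φ z = algebraMap ℂ B l) →
        (∃ τ : B →ₗ[ℂ] ℂ, IsTracialState τ) → (∀ K : ℕ, ¬ Small (1 : B) K) →
        GDec (1 : B) (fun i => φ (t i)) i0 (φ v) := by
  obtain ⟨f, N, g, hf, hg, hfg, hs, heq, hab⟩ := dkM hM k
  have hk : 0 < 2 ^ k := by positivity
  let i0 : Fin (2 ^ k) := ⟨0, hk⟩
  have hfp : ∀ i, IsPrj (f i) := fun i => (hf.1 i).1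
  have hgp : ∀ i, IsPrj (g i) := fun i => (hg.1 i).1
  choose s hs1 hs2 using fun i => heq i0 i
  have hsf : ∀ i, s i * f i0 = s i := fun i => mul_src (hfp i0) (hs1 i)
  have hsf' : ∀ i, f i0 * star (s i) = star (s i) := by
    intro i
    have := congrArg star (hsf i)
    rwa [star_mul, (hfp i0).1] at this
  have hfs : ∀ i, f i * s i = s i := by
    intro i
    rw [← hs2 i, mul_assoc, hs1 i, hsf i]
  have hfs' : ∀ i, star (s i) * f i = star (s i) := by
    intro i
    have := congrArg star (hfs i)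
    rwa [star_mul, (hfp i).1] at this
  set t : Fin (2 ^ k) → M := fun i => s i * star (s i0) with ht
  have ht0 : t i0 = f i0 := hs2 i0
  have hgf : ∀ j i, g j * f i = 0 := by
    intro j i
    have := congrArg star (hfg i j)
    rwa [star_mul, (hfp i).1, (hgp j).1, star_zero] at this
  set r : M := ∑ j, g j with hr
  have hrp : IsPrj r := by
    refine ⟨?_, ?_⟩
    · rw [hr, star_sum]
      exact Finset.sum_congr rfl fun j _ => (hgp j).1
    · rw [hr, Finset.sum_mul]
      refine Finset.sum_congr rfl fun i _ => ?_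
      rw [Finset.mul_sum, Finset.sum_eq_single i]
      · exact (hgp i).2
      · intro j _ hj
        exact hg.2 i j (Ne.symm hj)
      · simp
  have hrf : ∀ i, r * f i = 0 := by
    intro i
    rw [hr, Finset.sum_mul]
    exact Finset.sum_eq_zero fun j _ => hgf j i
  obtain ⟨z, hzp, hzc, hsub1, hsub2⟩ := hM.comp r (f i0) hrp (hfp i0)
  obtain ⟨v, hv1, hv2⟩ := hsub1
  have hzz : ∀ x y : M, z * x * (z * y) = z * (x * y) := by
    intro x y
    calc z * x * (z * y) = z * (x * z) * y := by noncomm_ring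
      _ = z * (z * x) * y := by rw [hzc x]
      _ = z * z * (x * y) := by noncomm_ring
      _ = z * (x * y) := by rw [hzp.2]
  have hzs : ∀ x : M, star (z * x) = z * star x := by
    intro x
    rw [star_mul, hzp.1, hzc]
  have hzrp : IsPrj (z * r) := ⟨by rw [hzs, hrp.1], by rw [hzz, hrp.2]⟩
  have htt : ∀ i j, star (t i) * t j = if i = j then f i0 else 0 := by
    intro i j
    rw [ht]
    simp only
    rw [star_mul, star_star]
    have e : s i0 * star (s i) * (s j * star (s i0)) = s i0 * (star (s i) * s j) * star (s i0) := by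
      noncomm_ring
    rw [e]
    split_ifs with h
    · subst h
      rw [hs1, hsf, hs2]
    · have e2 : star (s i) * s j = 0 := by
        rw [← hfs' i, ← hfs j]
        have : star (s i) * f i * (f j * s j) = star (s i) * (f i * f j) * s j := by noncomm_ring
        rw [this, hf.2 i j h]
        simp
      rw [e2]
      simp
  have htt' : ∀ i, t i * star (t i) = f i := by
    intro i
    rw [ht]
    simp only
    rw [star_mul, star_star]
    have e : s i * star (s i0) * (s i0 * star (s i)) = s i * (star (s i0) * s i0) * star (s i) := by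
      noncomm_ring
    rw [e, hs1, hsf, hs2]
  have hft : ∀ i, f i * t i = t i := by
    intro i
    rw [ht]
    simp only
    rw [← mul_assoc, hfs]
  have D : GDec z (fun i => z * t i) i0 v := by
    refine ⟨hzp, hzc, ?_, ?_, ?_, ?_, ?_⟩
    · intro i j
      rw [hzs, hzz, htt, ht0]
      split_ifs with h
      · rfl
      · rw [mul_zero]
    · rw [ht0]
      exact hv2
    · rw [hv1]
      exact hzrp
    · intro i
      have e1 : v * (z * r) = v := mul_src hzrp hv1
      rw [← e1]
      have e2 : v * (z * r) * (z * t i) = v * (z * r * (z * t i)) := by noncomm_ring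
      rw [e2, hzz, ← hft i, ← mul_assoc r, hrf]
      simp
    · have e1 : ∀ i, z * t i * star (z * t i) = z * f i := by
        intro i
        rw [hzs, hzz, htt']
      rw [Finset.sum_congr rfl fun i _ => e1 i, ← Finset.mul_sum, hv1, ← mul_add, hs, mul_one]
  refine ⟨z, fun i => z * t i, i0, v, D, ?_⟩
  intro B _ _ _ φ hφ h1 hz hτ hbig
  obtain ⟨τ, hτ⟩ := hτ
  have hF : IsFib B := hfib M B φ hM hφ h1 hz
  have hcc := P_Q2.cent_cases φ h1 hz
  have hφz : φ z = 1 := by
    rcases hcc z hzp hzc with h0 | h0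
    · exfalso
      have hsub : Sub (φ (f i0)) (φ r) := by
        have := P_Q2.sub_map φ hsub2
        simpa [map_mul, map_sub, h0] using this
      have hf' : OrthIn (1 : B) (fun i => φ (f i)) :=
        ⟨fun i => ⟨P_Q2.prj_map φ (hfp i), one_mul _⟩, fun i j hij => by
          change φ (f i) * φ (f j) = 0
          rw [← map_mul, hf.2 i j hij, map_zero]⟩
      have hg' : OrthIn (1 : B) (fun i => φ (g i)) :=
        ⟨fun i => ⟨P_Q2.prj_map φ (hgp i), one_mul _⟩, fun i j hij => by
          change φ (g i) * φ (g j) = 0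
          rw [← map_mul, hg.2 i j hij, map_zero]⟩
      have hs' : ∑ i, φ (f i) + ∑ j, φ (g j) = 1 := by
        rw [← map_sum, ← map_sum, ← map_add]
        have : ∑ i, f i + ∑ j, g j = 1 := hs
        rw [this, map_one]
      have heq' : ∀ i j, Eqv (φ (f i)) (φ (f j)) := by
        intro i j
        obtain ⟨y, h3, h4⟩ := heq i j
        exact ⟨φ y, by rw [← map_star, ← map_mul, h3], by rw [← map_star, ← map_mul, h4]⟩
      have hmin' : ∀ j, φ (g j) = 0 ∨ H711R2.KG.IsMin (φ (g j)) := by
        intro j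
        by_cases h00 : φ (g j) = 0
        · exact Or.inl h00
        refine Or.inr ⟨P_Q2.prj_map φ (hgp j), h00, ?_⟩
        intro p hp hgp'
        obtain ⟨P, hP, hP2, hP3⟩ := hlift M B φ hM hφ (g j) (hgp j) p hp hgp'
        obtain ⟨z', hz'p, hz'c, hz'P⟩ := (hab j).2 P hP hP2
        have h6 : p = φ z' * φ (g j) := by
          rw [← map_mul, ← hz'P, hP3]
        rcases hcc z' hz'p hz'c with h | h
        · left; rw [h6, h, zero_mul]
        · right; rw [h6, h, one_mul]
      have hno := no_sub hF hτ hbig htrs hT hf' hg' hs' heq' hmin' i0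
      apply hno
      rw [← map_sum]
      exact hsub
    · exact h0
  refine ⟨?_, fun a => by rw [one_mul, mul_one], ?_, ?_, ?_, ?_, ?_⟩
  · exact ⟨star_one B, one_mul 1⟩
  · intro i j
    rw [← map_star, ← map_mul, D.tt]
    split_ifs with h
    · rfl
    · exact map_zero φ
  · rw [← map_mul, D.fv]
  · have := P_Q2.prj_map φ D.rp
    rwa [map_mul, map_star] at this
  · intro i
    rw [← map_mul, D.vt, map_zero]
  · have := congrArg φ D.sum
    rw [hφz, map_add, map_sum, map_mul, map_star] at this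
    rw [← this]
    congr 1
    refine Finset.sum_congr rfl fun i _ => ?_
    rw [map_mul φ (z * t i) (star (z * t i)), map_star]

end vn

end Pool.Agent.Y784.KS
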