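import Mathlib
import Pool.Agent.H55R2.Kad5.Ult
import Pool.Agent.H294R2.Kad2.Dix2

/-!
Choice of the ultrafilter of central projections, with a joint similarity and without further loss.
-/

open scoped ComplexOrder InnerProductSpace

noncomputable section

namespace Pool.Agent.Y784.KS

open H759R2.Kad H770R2.Kad H770R2.Kad.AULT

universe u v

section gen

variable {A : Type u} [CStarAlgebra A]
variable {H : Type v} [NormedAddCommGroup H] [InnerProductSpace ℂ H] [CompleteSpace H]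
variable {W W' : A →ₗ[ℂ] (H →L[ℂ] H)} {m : ℕ} {S : H →L[ℂ] H} {c : ℝ}

/-- relation between the two homomorphisms -/
structure Rel (W W' : A →ₗ[ℂ] (H →L[ℂ] H)) (S : H →L[ℂ] H) (c : ℝ) : Prop where
  hom : IsHom W
  hom' : IsHom W'
  int : ∀ a ξ, S (W a ξ) = W' a (S ξ)
  up : ∀ g ∈ unitary A, ∀ ξ, ‖S (W g ξ)‖ ≤ c * ‖ξ‖
  lo : ∀ g ∈ unitary A, ∀ ξ, ‖W g ξ‖ ≤ c * ‖S ξ‖

/-- the diagonal operator `S` on the sum of `m` copies -/
def dS (S : H →L[ℂ] H) (m : ℕ) (v : HH (Fin m) H) : HH (Fin m) H := dg m S v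

theorem dS_apply (v : HH (Fin m) H) (i : Fin m) : dS S m v i = S (v i) := dg_apply _ _ _ _

theorem sq_le_of {v w : HH (Fin m) H} {b : ℝ} (hb : 0 ≤ b) (h : ∀ i, ‖v i‖ ≤ b * ‖w i‖) :
    ‖v‖ ≤ b * ‖w‖ := by
  refine le_of_sq_le_sq ?_ (by positivity)
  rw [mul_pow, PiLp.norm_sq_eq_of_L2, PiLp.norm_sq_eq_of_L2, Finset.mul_sum]
  refine Finset.sum_le_sum fun i _ => ?_
  rw [← mul_pow]
  exact pow_le_pow_left₀ (norm_nonneg _) (h i) 2

theorem dS_D (R : Rel W W' S c) (a : A) (v : HH (Fin m) H) :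
    dS S m (D W m a v) = D W' m a (dS S m v) := by
  ext i
  rw [dS_apply, D_apply, D_apply, dS_apply, R.int]

theorem dS_amp (R : Rel W W' S c) (X : CStarMatrix (Fin m) (Fin m) A) (v : HH (Fin m) H) :
    dS S m (amp W (Fin m) X v) = amp W' (Fin m) X (dS S m v) := by
  ext i
  rw [dS_apply, amp_apply, amp_apply, map_sum]
  refine Finset.sum_congr rfl fun j _ => ?_
  rw [R.int, dS_apply]

theorem up_m (R : Rel W W' S c) (hc : 0 ≤ c) {g : A} (hg : g ∈ unitary A) (v : HH (Fin m) H) :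
    ‖dS S m (D W m g v)‖ ≤ c * ‖v‖ :=
  sq_le_of hc fun i => by
    rw [dS_apply, D_apply]
    exact R.up g hg _

theorem lo_m (R : Rel W W' S c) (hc : 0 ≤ c) {g : A} (hg : g ∈ unitary A) (v : HH (Fin m) H) :
    ‖D W m g v‖ ≤ c * ‖dS S m v‖ :=
  sq_le_of hc fun i => by
    rw [dS_apply, D_apply]
    exact R.lo g hg _

theorem claimC2 (hW : IsHom W) (X : CStarMatrix (Fin m) (Fin m) A) {κ : ℝ} (hκ : 0 ≤ κ)
    (v : HH (Fin m) H) :
    ∀ ps : List A, (∀ p ∈ ps, CPg p) →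
    (∀ p ∈ ps, ∀ v, ‖amp W (Fin m) X (D W m p v)‖ ≤ κ * ‖D W m p v‖) →
    ∀ r : A, CPg r → N W m (amp W (Fin m) X v) r ps ≤ κ ^ 2 * N W m v r ps
  | [], _, _, r, hr => by simp [N]
  | p :: ps, h, h2, r, hr => by
    have hp := h p (by simp)
    have ih := claimC2 hW X hκ v ps (fun q hq => h q (by simp [hq]))
      (fun q hq => h2 q (by simp [hq])) (r * (1 - p)) (hr.mul hp.one_sub)
    rw [N, N, mul_add]
    refine add_le_add ?_ ih
    rw [← mul_pow]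
    refine pow_le_pow_left₀ (norm_nonneg _) ?_ 2
    have hrp := hr.mul hp
    have e : D W m (r * p) v = D W m p (D W m r v) := by
      rw [hr.2.2 p, D_mul hW]
      rfl
    rw [D_comm hW hrp X v, e]
    exact h2 p (by simp) _

theorem unit_of {g : A} (h1 : star g = g) (h2 : g * g = 1) : g ∈ unitary A := by
  rw [Unitary.mem_iff, h1]
  exact ⟨h2, h2⟩

theorem step1b (R : Rel W W' S c) (hc : 0 ≤ c)
    (X : CStarMatrix (Fin m) (Fin m) A) {κ : ℝ} (hκ : 0 ≤ κ) (ps : List A)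
    (h : ∀ p ∈ ps, CPg p)
    (h2 : ∀ p ∈ ps, ∀ v, ‖amp W' (Fin m) X (D W' m p v)‖ ≤ κ * ‖D W' m p v‖)
    (hrem : rem ps = 0) : ‖amp W (Fin m) X‖ ≤ c ^ 2 * κ := by
  refine ContinuousLinearMap.opNorm_le_bound _ (by positivity) fun v => ?_
  set w := amp W (Fin m) X v with hw
  obtain ⟨g, hg1, _, hg2, hgN⟩ := claimB (W := W') (dS S m w) ps h 1 CPg.one
  obtain ⟨k, hk1, _, hk2, hkN⟩ := claimA (W := W') (dS S m v) ps h 1 CPg.one
  rw [hrem, mul_zero, sub_zero] at hg2 hk2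
  have hgu := unit_of hg1 hg2
  have hku := unit_of hk1 hk2
  have hC := claimC2 R.hom' X hκ (dS S m v) ps h h2 1 CPg.one
  rw [← dS_amp R, ← hw] at hC
  have s1 : ‖w‖ ≤ c * ‖D W' m g (dS S m w)‖ := by
    have e : w = D W m g (D W m g w) := by
      have : D W m g * D W m g = 1 := by rw [← D_mul R.hom, hg2, D_one R.hom]
      have := congrArg (fun T : HH (Fin m) H →L[ℂ] HH (Fin m) H => T w) this
      exact this.symm
    calc ‖w‖ = ‖D W m g (D W m g w)‖ := by rw [← e]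
      _ ≤ c * ‖dS S m (D W m g w)‖ := lo_m R hc hgu _
      _ = _ := by rw [dS_D R]
  have s2 : ‖D W' m k (dS S m v)‖ ≤ c * ‖v‖ := by
    rw [← dS_D R]
    exact up_m R hc hku v
  have s3 : ‖w‖ ^ 2 ≤ (c ^ 2 * κ * ‖v‖) ^ 2 := by
    calc ‖w‖ ^ 2 ≤ (c * ‖D W' m g (dS S m w)‖) ^ 2 := pow_le_pow_left₀ (norm_nonneg _) s1 2
      _ = c ^ 2 * ‖D W' m g (dS S m w)‖ ^ 2 := by ring
      _ ≤ c ^ 2 * N W' m (dS S m w) 1 ps := mul_le_mul_of_nonneg_left hgN (by positivity)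
      _ ≤ c ^ 2 * (κ ^ 2 * N W' m (dS S m v) 1 ps) :=
          mul_le_mul_of_nonneg_left hC (by positivity)
      _ ≤ c ^ 2 * (κ ^ 2 * ‖D W' m k (dS S m v)‖ ^ 2) := by gcongr
      _ ≤ c ^ 2 * (κ ^ 2 * (c * ‖v‖) ^ 2) := by gcongr
      _ = (c ^ 2 * κ * ‖v‖) ^ 2 := by ring
  exact (sq_le_sq₀ (norm_nonneg _) (by positivity)).1 s3

/-- STEP 2 -/
theorem step2b (R : Rel W W' S c) (hc : 0 ≤ c)
    (X : CStarMatrix (Fin m) (Fin m) A) (hX : amp W (Fin m) X ≠ 0) (ps : List A)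
    (h : ∀ p ∈ ps, CPg p)
    (h2 : ∀ p ∈ ps, ∃ κ : ℝ, 0 ≤ κ ∧ c ^ 2 * κ < ‖amp W (Fin m) X‖ ∧
      ∀ v, ‖amp W' (Fin m) X (D W' m p v)‖ ≤ κ * ‖D W' m p v‖) : rem ps ≠ 0 := by
  intro hrem
  have hK : 0 < ‖amp W (Fin m) X‖ := norm_pos_iff.2 hX
  have hex : ∀ ps : List A, (∀ p ∈ ps, ∃ κ : ℝ, 0 ≤ κ ∧ c ^ 2 * κ < ‖amp W (Fin m) X‖ ∧
      ∀ v, ‖amp W' (Fin m) X (D W' m p v)‖ ≤ κ * ‖D W' m p v‖) →
      ∃ κ : ℝ, 0 ≤ κ ∧ c ^ 2 * κ < ‖amp W (Fin m) X‖ ∧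
        ∀ p ∈ ps, ∀ v, ‖amp W' (Fin m) X (D W' m p v)‖ ≤ κ * ‖D W' m p v‖ := by
    intro ps
    induction ps with
    | nil => intro _; exact ⟨0, le_rfl, by rw [mul_zero]; exact hK, by simp⟩
    | cons p ps ih =>
      intro h
      obtain ⟨κ, h1, h2, h3⟩ := ih (fun q hq => h q (by simp [hq]))
      obtain ⟨κ', h1', h2', h3'⟩ := h p (by simp)
      refine ⟨max κ κ', le_max_of_le_left h1, ?_, ?_⟩
      · rcases max_choice κ κ' with e | e
        · rw [e]; exact h2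
        · rw [e]; exact h2'
      · intro q hq v
        rcases List.mem_cons.1 hq with rfl | hq
        · exact (h3' v).trans (mul_le_mul_of_nonneg_right (le_max_right _ _) (norm_nonneg _))
        · exact (h3 q hq v).trans (mul_le_mul_of_nonneg_right (le_max_left _ _) (norm_nonneg _))
  obtain ⟨κ, k1, k2, k3⟩ := hex ps h2
  have := step1b R hc X k1 ps h k3 hrem
  linarith

/-- the general statement -/
theorem ult_gen2 (R : Rel W W' S c) (hc : 0 ≤ c)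
    (X : CStarMatrix (Fin m) (Fin m) A) (hX : amp W (Fin m) X ≠ 0) :
    ∃ F : Set A, (∀ p ∈ F, CPg p) ∧ 1 ∈ F ∧ (∀ p ∈ F, ∀ q ∈ F, p * q ∈ F) ∧
      (∀ p, CPg p → p ∈ F ∨ 1 - p ∈ F) ∧ (0 : A) ∉ F ∧
      ∀ p ∈ F, ∀ κ : ℝ, 0 ≤ κ → c ^ 2 * κ < ‖amp W (Fin m) X‖ →
        ∃ v, κ * ‖D W' m p v‖ < ‖amp W' (Fin m) X (D W' m p v)‖ := by
  let Small : A → Prop := fun p =>
    CPg p ∧ ∃ κ : ℝ, 0 ≤ κ ∧ c ^ 2 * κ < ‖amp W (Fin m) X‖ ∧
      ∀ v, ‖amp W' (Fin m) X (D W' m p v)‖ ≤ κ * ‖D W' m p v‖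
  let Z : Set (Set A) := {F | (∀ p ∈ F, CPg p) ∧ 1 ∈ F ∧ (∀ p ∈ F, ∀ q ∈ F, p * q ∈ F) ∧
    (0 : A) ∉ F}
  let S0 : Set A := {x | ∃ ps : List A, (∀ p ∈ ps, Small p) ∧ x = rem ps}
  have hS0 : S0 ∈ Z := by
    refine ⟨?_, ⟨[], by simp, rfl⟩, ?_, ?_⟩
    · rintro _ ⟨ps, h, rfl⟩
      exact rem_CPg ps (fun p hp => (h p hp).1)
    · rintro _ ⟨ps, h, rfl⟩ _ ⟨qs, h', rfl⟩
      refine ⟨ps ++ qs, ?_, (rem_append ps qs).symm⟩
      intro p hp
      rcases List.mem_append.1 hp with hp | hp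
      · exact h p hp
      · exact h' p hp
    · rintro ⟨ps, h, h0⟩
      exact step2b R hc X hX ps (fun p hp => (h p hp).1) (fun p hp => (h p hp).2) h0.symm
  obtain ⟨F, hF1, hF2⟩ := zorn_subset_nonempty Z (by
    intro C hC hchain hne
    refine ⟨⋃₀ C, ⟨?_, ?_, ?_, ?_⟩, fun s hs => Set.subset_sUnion_of_mem hs⟩
    · rintro p ⟨s, hs, hp⟩
      exact (hC hs).1 p hp
    · obtain ⟨s, hs⟩ := hne
      exact ⟨s, hs, (hC hs).2.1⟩
    · rintro p ⟨s, hs, hp⟩ q ⟨t, ht, hq⟩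
      rcases hchain.total hs ht with h | h
      · exact ⟨t, ht, (hC ht).2.2.1 p (h hp) q hq⟩
      · exact ⟨s, hs, (hC hs).2.2.1 p hp q (h hq)⟩
    · rintro ⟨s, hs, h0⟩
      exact (hC hs).2.2.2 h0) S0 hS0
  obtain ⟨f1, f2, f3, f4⟩ := hF2.prop
  -- if `p ∉ F`, some `q ∈ F` has `q p = 0`
  have key : ∀ p : A, CPg p → p ∉ F → ∃ q ∈ F, q * p = 0 := by
    intro p hp hpF
    by_contra hcon
    push Not at hcon
    let F' : Set A := F ∪ {x | ∃ q ∈ F, x = q * p}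
    have hF' : F' ∈ Z := by
      refine ⟨?_, Or.inl f2, ?_, ?_⟩
      · rintro x (hx | ⟨q, hq, rfl⟩)
        · exact f1 x hx
        · exact (f1 q hq).mul hp
      · rintro x (hx | ⟨q, hq, rfl⟩) y (hy | ⟨q', hq', rfl⟩)
        · exact Or.inl (f3 x hx y hy)
        · exact Or.inr ⟨x * q', f3 x hx q' hq', by rw [mul_assoc]⟩
        · exact Or.inr ⟨q * y, f3 q hq y hy, by rw [mul_assoc, mul_assoc, hp.2.2 y]⟩
        · refine Or.inr ⟨q * q', f3 q hq q' hq', ?_⟩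
          calc q * p * (q' * p) = q * (p * q') * p := by noncomm_ring
            _ = q * (q' * p) * p := by rw [hp.2.2 q']
            _ = q * q' * (p * p) := by noncomm_ring
            _ = q * q' * p := by rw [hp.2.1]
      · rintro (h0 | ⟨q, hq, h0⟩)
        · exact f4 h0
        · exact hcon q hq h0.symm
    have hsub : F' ⊆ F := hF2.le_of_ge hF' Set.subset_union_left
    exact hpF (hsub (Or.inr ⟨1, f2, by rw [one_mul]⟩))
  refine ⟨F, f1, f2, f3, ?_, f4, ?_⟩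
  · intro p hp
    by_contra hcon
    push Not at hcon
    obtain ⟨q, hq, h1⟩ := key p hp hcon.1
    obtain ⟨q', hq', h2⟩ := key (1 - p) hp.one_sub hcon.2
    apply f4
    have e : q * q' = 0 := by
      calc q * q' = q' * (q * p) + q * (q' * (1 - p)) := by
            have : q' * (q * p) = q * (q' * p) := by
              rw [← mul_assoc, ← mul_assoc, (f1 q hq).2.2 q']
            rw [this, mul_sub, mul_one, mul_sub]
            abel
        _ = 0 := by rw [h1, h2, mul_zero, mul_zero, add_zero]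
    rw [← e]
    exact f3 q hq q' hq'
  · intro p hp κ hκ0 hκ
    by_contra hcon
    push Not at hcon
    have hcp := f1 p hp
    have h1 : 1 - p ∈ F := by
      apply hF1
      refine ⟨[p], ?_, by simp [rem]⟩
      intro q hq
      rw [List.mem_singleton] at hq
      subst hq
      exact ⟨hcp, κ, hκ0, hκ, hcon⟩
    have h2 := f3 p hp _ h1
    rw [mul_sub, mul_one, hcp.2.1, sub_self] at h2
    exact f4 h2

end gen

end Pool.Agent.Y784.KS
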