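import Mathlib
import Pool.Agent.H770R2.Kad.HFIB
import Pool.Agent.Y784.KS.Ult2

/-! The fibre of a homomorphism, without loss. -/

open scoped ComplexOrder InnerProductSpace

noncomputable section

namespace Pool.Agent.Y784.KS

open H759R2.Kad H770R2.Kad H770R2.Kad.Hfib H770R2.Kad.AULT

universe u v

theorem hfib2 (h1 : H_up.{0}) (h2 : H_upalg.{0})
    (L : Type) [NormedAddCommGroup L] [InnerProductSpace ℂ L] [CompleteSpace L]
    (M : VonNeumannAlgebra L) (F : Set M.toStarSubalgebra) (hF : CUlt M F)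
    (H : Type) [NormedAddCommGroup H] [InnerProductSpace ℂ H] [CompleteSpace H]
    (W : M.toStarSubalgebra →ₗ[ℂ] (H →L[ℂ] H)) (hW : IsHom W) (c : ℝ) (hc0 : 0 ≤ c)
    (hWc : ∀ a, ‖W a‖ ≤ c * ‖a‖) (m : ℕ) (X : CStarMatrix (Fin m) (Fin m) M.toStarSubalgebra)
    (κ : ℝ) (hκ : 0 ≤ κ)
    (hX : ∀ p ∈ F, ∃ v, κ * ‖D W m p v‖ < ‖amp W (Fin m) X (D W m p v)‖) :
    ∃ (K : Type) (_ : NormedAddCommGroup K) (_ : InnerProductSpace ℂ K) (_ : CompleteSpace K)
      (w : M.toStarSubalgebra →ₗ[ℂ] (K →L[ℂ] K)), IsHom w ∧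
      (∀ a, ∀ p ∈ F, ‖w a‖ ≤ c * ‖p * a‖) ∧
      (∀ a, star (W a) = W (star a) → star (w a) = w (star a)) ∧
      κ ≤ ‖amp w (Fin m) X‖ := by
  obtain ⟨U, hU⟩ := exists_ult F hF
  obtain ⟨Kh, _, _, _, Q, O, hUP⟩ := h1 F U H
  obtain ⟨hQlin, hOlin, hOmul, hOstar, -, -, hOle, -⟩ := h2 F U H Kh Q O hUP
  let fam : M.toStarSubalgebra → F → (H →L[ℂ] H) := fun a p => W ((p : M.toStarSubalgebra) * a)
  have hpn : ∀ p : F, ‖(p : M.toStarSubalgebra)‖ ≤ 1 := fun p => cp_norm (hF.cp p.1 p.2)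
  have hfb : ∀ a (p : F), ‖fam a p‖ ≤ c * ‖a‖ := by
    intro a p
    refine (hWc _).trans (mul_le_mul_of_nonneg_left ?_ hc0)
    refine (norm_mul_le _ _).trans ?_
    calc ‖(p : M.toStarSubalgebra)‖ * ‖a‖ ≤ 1 * ‖a‖ :=
          mul_le_mul_of_nonneg_right (hpn p) (norm_nonneg _)
      _ = ‖a‖ := one_mul _
  have hBd : ∀ a, Bd (fam a) := fun a => ⟨c * ‖a‖, hfb a⟩
  have hfmul : ∀ a b (p : F), fam a p * fam b p = fam (a * b) p := by
    intro a b p
    have hp := hF.cp p.1 p.2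
    change W (p.1 * a) * W (p.1 * b) = W (p.1 * (a * b))
    rw [← hW.mul]
    congr 1
    calc p.1 * a * (p.1 * b) = (p.1 * a) * p.1 * b := by simp only [mul_assoc]
      _ = (p.1 * (p.1 * a)) * b := by rw [hp.2.2 (p.1 * a)]
      _ = (p.1 * p.1) * (a * b) := by simp only [mul_assoc]
      _ = p.1 * (a * b) := by rw [hp.2.1]
  have hOf : ∀ a b, O (fam a) * O (fam b) = O (fam (a * b)) := by
    intro a b
    rw [← hOmul _ _ (hBd a) (hBd b)]
    congr 1
    funext p
    exact hfmul a b p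
  set E : Kh →L[ℂ] Kh := O (fam 1) with hE
  have hEf : ∀ a x, E (O (fam a) x) = O (fam a) x := by
    intro a x
    have := hOf 1 a
    rw [one_mul] at this
    exact congrArg (fun T : Kh →L[ℂ] Kh => T x) this
  have hfE : ∀ a x, O (fam a) (E x) = O (fam a) x := by
    intro a x
    have := hOf a 1
    rw [mul_one] at this
    exact congrArg (fun T : Kh →L[ℂ] Kh => T x) this
  -- the closed subspace
  let Ks : Submodule ℂ Kh := LinearMap.ker ((E - 1 : Kh →L[ℂ] Kh) : Kh →ₗ[ℂ] Kh)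
  have hmem : ∀ x, x ∈ Ks ↔ E x = x := by
    intro x
    change (E - 1 : Kh →L[ℂ] Kh) x = 0 ↔ _
    rw [sub_apply, one_apply_eq_self, sub_eq_zero]
  have hclosed : IsClosed (Ks : Set Kh) := (E - 1 : Kh →L[ℂ] Kh).isClosed_ker
  have : CompleteSpace Ks := hclosed.completeSpace_coe
  have hcod : ∀ a (x : Ks), ((O (fam a)).comp Ks.subtypeL) x ∈ Ks := by
    intro a x
    rw [hmem]
    exact hEf a x
  have hfadd : ∀ a b, O (fam (a + b)) = O (fam a) + O (fam b) := by
    intro a b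
    have := hOlin (fam a) (fam b) 1 (hBd a) (hBd b)
    rw [one_smul] at this
    rw [← this]
    congr 1
    funext p
    change W (p.1 * (a + b)) = (1 : ℂ) • W (p.1 * a) + W (p.1 * b)
    rw [one_smul, mul_add, map_add]
  have hf0 : O (fam 0) = 0 := by
    have := hfadd 0 0
    rw [add_zero] at this
    exact left_eq_add.mp this
  have hfsmul : ∀ (r : ℂ) a, O (fam (r • a)) = r • O (fam a) := by
    intro r a
    have := hOlin (fam a) (fam 0) r (hBd a) (hBd 0)
    rw [hf0, add_zero] at this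
    rw [← this]
    congr 1
    funext p
    change W (p.1 * (r • a)) = r • W (p.1 * a) + W (p.1 * 0)
    rw [mul_smul_comm, map_smul, mul_zero, map_zero, add_zero]
  let w : M.toStarSubalgebra →ₗ[ℂ] (Ks →L[ℂ] Ks) :=
    { toFun := fun a => ((O (fam a)).comp Ks.subtypeL).codRestrict Ks (hcod a)
      map_add' := by
        intro a b
        ext x
        change O (fam (a + b)) (x : Kh) = O (fam a) (x : Kh) + O (fam b) (x : Kh)
        rw [hfadd]
        rfl
      map_smul' := by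
        intro r a
        ext x
        change O (fam (r • a)) (x : Kh) = r • O (fam a) (x : Kh)
        rw [hfsmul]
        rfl }
  have hw : ∀ a (x : Ks), ((w a x : Ks) : Kh) = O (fam a) (x : Kh) := fun a x => rfl
  have hOa : ∀ a, ∀ q ∈ F, ‖O (fam a)‖ ≤ c * ‖q * a‖ := by
    intro a q hq
    refine hOle _ _ (by positivity) (hBd a) ?_
    filter_upwards [hU q hq] with p hp
    have e : (p : M.toStarSubalgebra) * a = p * (q * a) := by
      have hq' := hF.cp q hq
      calc (p : M.toStarSubalgebra) * a = (q * p) * a := by rw [hp]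
        _ = (p * q) * a := by rw [hq'.2.2 p]
        _ = p * (q * a) := by rw [mul_assoc]
    change ‖W ((p : M.toStarSubalgebra) * a)‖ ≤ _
    rw [e]
    exact hfb (q * a) p
  refine ⟨Ks, inferInstance, inferInstance, inferInstance, w, ⟨?_, ?_⟩, ?_, ?_, ?_⟩
  · intro a b
    ext x
    change O (fam (a * b)) (x : Kh) = O (fam a) (O (fam b) (x : Kh))
    rw [← hOf]
    rfl
  · ext x
    change O (fam 1) (x : Kh) = x
    exact (hmem x).1 x.2
  · intro a q hq
    refine ContinuousLinearMap.opNorm_le_bound _ (by positivity) fun x => ?_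
    have : ‖w a x‖ = ‖O (fam a) (x : Kh)‖ := rfl
    rw [this]
    refine ((O (fam a)).le_opNorm _).trans ?_
    exact mul_le_mul_of_nonneg_right (hOa a q hq) (norm_nonneg _)
  · -- adjoints
    intro a ha
    have hcb : ∀ b, Bd (fun _ : F => W b) := fun b => ⟨‖W b‖, fun _ => le_rfl⟩
    have hconst : ∀ b (y : Ks), O (fam b) (y : Kh) = O (fun _ => W b) (y : Kh) := by
      intro b y
      have e1 : O (fam b) = O (fun _ => W b) * O (fam 1) := by
        rw [← hOmul _ _ (hcb b) (hBd 1)]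
        congr 1
        funext p
        change W (p.1 * b) = W b * W (p.1 * 1)
        rw [mul_one, ← hW.mul, (hF.cp p.1 p.2).2.2 b]
      rw [e1]
      change O (fun _ => W b) (E (y : Kh)) = _
      rw [(hmem _).1 y.2]
    refine ContinuousLinearMap.ext fun x => ?_
    refine ext_inner_right ℂ fun y => ?_
    rw [ContinuousLinearMap.star_eq_adjoint, ContinuousLinearMap.adjoint_inner_left]
    change ⟪(x : Kh), O (fam a) (y : Kh)⟫_ℂ = ⟪O (fam (star a)) (x : Kh), (y : Kh)⟫_ℂ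
    rw [hconst, hconst]
    have e2 : O (fun _ => W (star a)) = star (O (fun _ : F => W a)) := by
      rw [← hOstar _ (hcb a)]
      congr 1
      funext p
      exact ha.symm
    rw [e2, ContinuousLinearMap.star_eq_adjoint, ContinuousLinearMap.adjoint_inner_left]
  · -- the lower bound
    have hWp : ∀ (p : F), W (p : M.toStarSubalgebra) * W p = W p := by
      intro p
      rw [← hW.mul, (hF.cp p.1 p.2).2.1]
    have hDD : ∀ (p : F) (v : HH (Fin m) H), D W m (p : M.toStarSubalgebra) (D W m p v) =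
        D W m p v := by
      intro p v
      have := D_mul (m := m) hW (p : M.toStarSubalgebra) p
      rw [(hF.cp p.1 p.2).2.1] at this
      exact (congrArg (fun T : HH (Fin m) H →L[ℂ] HH (Fin m) H => T v) this).symm
    have hvec : ∀ p : F, ∃ x : HH (Fin m) H, ‖x‖ ≤ 1 ∧
        D W m (p : M.toStarSubalgebra) x = x ∧ κ ≤ ‖amp W (Fin m) X x‖ := by
      intro p
      obtain ⟨v, hv⟩ := hX p.1 p.2
      set d := D W m (p : M.toStarSubalgebra) v with hd
      have hd0 : d ≠ 0 := by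
        intro h0
        rw [h0] at hv
        simp at hv
      have hn : 0 < ‖d‖ := norm_pos_iff.2 hd0
      refine ⟨((‖d‖⁻¹ : ℝ) : ℂ) • d, ?_, ?_, ?_⟩
      · rw [norm_smul, Complex.norm_real, Real.norm_of_nonneg (by positivity),
          inv_mul_cancel₀ hn.ne']
      · rw [map_smul, hd, hDD]
      · rw [map_smul, norm_smul, Complex.norm_real, Real.norm_of_nonneg (by positivity)]
        have : κ * ‖d‖ ≤ ‖amp W (Fin m) X d‖ := hv.le
        calc κ = ‖d‖⁻¹ * (κ * ‖d‖) := by field_simp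
          _ ≤ ‖d‖⁻¹ * ‖amp W (Fin m) X d‖ := by gcongr
    choose ξ hξ1 hξD hξ2 using hvec
    have hξb : ∀ j, Bd (fun p : F => ξ p j) := fun j =>
      ⟨1, fun p => (PiLp.norm_apply_le (ξ p) j).trans (hξ1 p)⟩
    let Ξ : HH (Fin m) Kh := WithLp.toLp 2 fun j => Q (fun p : F => ξ p j)
    have hΞj : ∀ j, Ξ j = Q (fun p : F => ξ p j) := fun j => rfl
    have hΞ : ‖Ξ‖ ≤ 1 := by
      have h3 : Filter.Tendsto (fun p : F => ∑ j, ‖ξ p j‖ ^ 2) U (nhds (∑ j, ‖Ξ j‖ ^ 2)) :=
        tendsto_finsetSum _ fun j _ => norm_lim hUP (hξb j)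
      have h4 : ∑ j, ‖Ξ j‖ ^ 2 ≤ 1 := by
        refine le_of_tendsto h3 (Filter.Eventually.of_forall fun p => ?_)
        rw [← PiLp.norm_sq_eq_of_L2]
        have := hξ1 p
        nlinarith [norm_nonneg (ξ p)]
      rw [← PiLp.norm_sq_eq_of_L2] at h4
      nlinarith [norm_nonneg Ξ]
    have hEΞ : ∀ j, E (Ξ j) = Ξ j := by
      intro j
      rw [hE, hΞj, hUP.act (fam 1) (fun p : F => ξ p j) (hBd 1) (hξb j)]
      congr 1
      funext p
      change W ((p : M.toStarSubalgebra) * 1) (ξ p j) = ξ p j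
      rw [mul_one]
      have := congrArg (fun v : HH (Fin m) H => v j) (hξD p)
      simpa only [D_apply] using this
    let Ξ' : HH (Fin m) Ks := WithLp.toLp 2 fun j => ⟨Ξ j, (hmem _).2 (hEΞ j)⟩
    have hΞ'j : ∀ j, ((Ξ' j : Ks) : Kh) = Ξ j := fun j => rfl
    have hΞ' : ‖Ξ'‖ ≤ 1 := by
      have h3 : ‖Ξ'‖ ^ 2 = ‖Ξ‖ ^ 2 := by
        rw [PiLp.norm_sq_eq_of_L2, PiLp.norm_sq_eq_of_L2]
        rfl
      have h4 : ‖Ξ'‖ = ‖Ξ‖ := by
        nlinarith [norm_nonneg Ξ, norm_nonneg Ξ', sq_nonneg (‖Ξ'‖ - ‖Ξ‖),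
          (sq_eq_sq₀ (norm_nonneg Ξ') (norm_nonneg Ξ)).1 h3]
      rw [h4]
      exact hΞ
    -- the vectors y
    let T : F → HH (Fin m) H := fun p => amp W (Fin m) X (ξ p)
    have hT : ∀ (p : F) (i : Fin m), (T p) i = ∑ j, fam (X i j) p (ξ p j) := by
      intro p i
      have hcp : CPg (p : M.toStarSubalgebra) := hF.cp p.1 p.2
      have e1 : T p = D W m (p : M.toStarSubalgebra) (T p) := by
        change amp W (Fin m) X (ξ p) = D W m p (amp W (Fin m) X (ξ p))
        rw [D_comm hW hcp, hξD]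
      rw [e1, D_apply]
      change W p.1 (amp W (Fin m) X (ξ p) i) = _
      rw [amp_apply, map_sum]
      refine Finset.sum_congr rfl fun j _ => ?_
      change W p.1 (W (X i j) (ξ p j)) = W (p.1 * X i j) (ξ p j)
      rw [hW.mul]
      rfl
    have hzb : ∀ i j, Bd (fun p : F => fam (X i j) p (ξ p j)) := by
      intro i j
      refine ⟨c * ‖X i j‖ * 1, fun p => ?_⟩
      refine ((fam (X i j) p).le_opNorm _).trans ?_
      refine mul_le_mul (hfb _ _) ((PiLp.norm_apply_le (ξ p) j).trans (hξ1 p)) (norm_nonneg _)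
        (by positivity)
    have hyb : ∀ i, Bd (fun p : F => (T p) i) := by
      intro i
      have h3 := (Q_sum hQlin Finset.univ (fun j p => fam (X i j) p (ξ p j)) (hzb i)).1
      simpa only [hT] using h3
    have hQy : ∀ i, ((amp w (Fin m) X Ξ' i : Ks) : Kh) = Q (fun p : F => (T p) i) := by
      intro i
      have h3 := (Q_sum hQlin Finset.univ (fun j p => fam (X i j) p (ξ p j)) (hzb i)).2
      simp only [hT]
      rw [h3, amp_apply, Submodule.coe_sum]
      refine Finset.sum_congr rfl fun j _ => ?_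
      rw [hw, hΞ'j, hΞj]
      exact hUP.act (fam (X i j)) (fun p : F => ξ p j) (hBd _) (hξb j)
    have hlow : κ ^ 2 ≤ ‖amp w (Fin m) X Ξ'‖ ^ 2 := by
      have h3 : Filter.Tendsto (fun p : F => ∑ i, ‖(T p) i‖ ^ 2) U
          (nhds (∑ i, ‖Q (fun p : F => (T p) i)‖ ^ 2)) :=
        tendsto_finsetSum _ fun i _ => norm_lim hUP (hyb i)
      have h4 : ‖amp w (Fin m) X Ξ'‖ ^ 2 = ∑ i, ‖Q (fun p : F => (T p) i)‖ ^ 2 := by
        rw [PiLp.norm_sq_eq_of_L2]
        refine Finset.sum_congr rfl fun i _ => ?_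
        rw [← hQy i]
        rfl
      rw [h4]
      refine ge_of_tendsto h3 (Filter.Eventually.of_forall fun p => ?_)
      rw [← PiLp.norm_sq_eq_of_L2]
      exact pow_le_pow_left₀ hκ (hξ2 p) 2
    have hlow' : κ ≤ ‖amp w (Fin m) X Ξ'‖ :=
      (sq_le_sq₀ hκ (norm_nonneg _)).1 hlow
    have hup : ‖amp w (Fin m) X Ξ'‖ ≤ ‖amp w (Fin m) X‖ * 1 :=
      ((amp w (Fin m) X).le_opNorm _).trans (mul_le_mul_of_nonneg_left hΞ' (norm_nonneg _))
    linarith

end Pool.Agent.Y784.KS
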