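import Mathlib
import Pool.Agent.Y784.KS.GD
import Pool.Agent.Y784.KS.Fib2
import Pool.Agent.Y784.KS.Hfib2
import Pool.Agent.H770R2.Kad.HAsm

/-! Assembly: bounded homomorphisms of von Neumann algebras are completely bounded, with a good
exponent. -/

open scoped ComplexOrder InnerProductSpace ComplexConjugate

noncomputable section

namespace Pool.Agent.Y784.KS

open H759R2.Kad H711R2.KG H770R2.Kad H770R2.Kad.AULT

universe u v

/-- Fibres. -/
theorem fibre_bd {F : ℝ → ℝ} {G : ℕ → ℕ} (hmain : MainBd.{u, v} F G)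
    (hF : ∀ γ : ℝ, 1 ≤ γ → 16 * γ ^ 4 ≤ F γ)
    {B : Type u} [CStarAlgebra B] [PartialOrder B] [StarOrderedRing B] (hB : IsFib B)
    {n : ℕ} {t : Fin n → B} {i0 : Fin n} {v : B}
    (D : (∃ τ : B →ₗ[ℂ] ℂ, IsTracialState τ) → (∀ K : ℕ, ¬ Small (1 : B) K) →
      GDec (1 : B) t i0 v) {m : ℕ} (hm : 0 < m) (hn : G (2 * m) ≤ n)
    {H : Type v} [NormedAddCommGroup H] [InnerProductSpace ℂ H] [CompleteSpace H]
    (u : B →ₗ[ℂ] (H →L[ℂ] H)) (hu : IsHom u) {c : ℝ} (hc : 1 ≤ c) (hb : ∀ b, ‖u b‖ ≤ c * ‖b‖)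
    (hst : ∀ i, star (u (t i)) = u (star (t i))) (hsv : star (u v) = u (star v)) :
    LvlBd u m (F c) := by
  have hc0 : 0 ≤ c := by linarith
  have hF0 : ∀ γ : ℝ, 1 ≤ γ → 0 ≤ F γ := fun γ hγ => le_trans (by positivity) (hF γ hγ)
  by_cases hs : ∃ K, Small (1 : B) K
  · obtain ⟨K, hK⟩ := hs
    refine lvl_mono (main_small B hB K hK H u hu c hc0 hb m) (le_trans ?_ (hF c hc))
    calc c ^ 2 ≤ c ^ 4 := pow_le_pow_right₀ hc (by norm_num)
      _ ≤ 16 * c ^ 4 := by nlinarith [pow_nonneg hc0 4]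
  have hns : ∀ K, ¬ Small (1 : B) K := fun K hK => hs ⟨K, hK⟩
  by_cases ht : ∃ τ : B →ₗ[ℂ] ℂ, IsTracialState τ
  · obtain ⟨τ, hτ⟩ := ht
    exact fib2 hmain hF0 hB hτ hns (D ⟨τ, hτ⟩ hns) hm hn u hu hc hb hst hsv
  · exact lvl_mono (notrace B ht H u hu c hc0 hb m) (hF c hc)

/-- Von Neumann algebras. -/
theorem vn_bd {F : ℝ → ℝ} {G : ℕ → ℕ} (hmain : MainBd.{0, 0} F G)
    (hF : ∀ γ : ℝ, 1 ≤ γ → 16 * γ ^ 4 ≤ F γ)
    (L : Type) [NormedAddCommGroup L] [InnerProductSpace ℂ L] [CompleteSpace L]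
    (M : VonNeumannAlgebra L) [PartialOrder M.toStarSubalgebra]
    [StarOrderedRing M.toStarSubalgebra]
    (H : Type) [NormedAddCommGroup H] [InnerProductSpace ℂ H] [CompleteSpace H]
    (W : M.toStarSubalgebra →ₗ[ℂ] (H →L[ℂ] H)) (hW : IsHom W) (c : ℝ) (hc : 1 ≤ c)
    (hWc : ∀ a, ‖W a‖ ≤ c * ‖a‖) (m : ℕ) : LvlBd W m (c ^ 2 * F c) := by
  have hc0 : 0 < c := by linarith
  have hF0 : 0 ≤ F c := le_trans (by positivity) (hF c hc)
  intro X
  rcases Nat.eq_zero_or_pos m with rfl | hm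
  · exact lvl_zero W (by positivity) X
  have hVN : IsVN M.toStarSubalgebra := main_V L M
  obtain ⟨k, hk⟩ : ∃ k : ℕ, G (2 * m) ≤ 2 ^ k :=
    ⟨_, (Nat.lt_two_pow_self (n := G (2 * m))).le⟩
  obtain ⟨z, t, i0, v, D, hDφ⟩ := gdec hVN p_Q_lift (p_B_trsmall p_B_minle p_T_sub) p_T_sub
    (p_Q_fib p_Q_lift) k
  obtain ⟨S, S', i1, i2, hn, hup, hlo, hst, hsv⟩ := D.sim W hW hc0.le hWc
  let W' : M.toStarSubalgebra →ₗ[ℂ] (H →L[ℂ] H) :=
    { toFun := fun X => S * W X * S'
      map_add' := fun X Y => by rw [map_add, mul_add, add_mul]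
      map_smul' := fun r X => by
        rw [map_smul, mul_smul_comm, smul_mul_assoc, RingHom.id_apply] }
  have hW' : IsHom W' := by
    refine ⟨fun X Y => ?_, ?_⟩
    · show S * W (X * Y) * S' = (S * W X * S') * (S * W Y * S')
      rw [hW.mul]
      calc S * (W X * W Y) * S' = S * W X * 1 * W Y * S' := by
            simp only [mul_assoc, one_mul]
        _ = S * W X * (S' * S) * W Y * S' := by rw [i2]
        _ = _ := by simp only [mul_assoc]
    · show S * W 1 * S' = 1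
      rw [hW.one, mul_one, i1]
  have R : Rel W W' S c := by
    refine ⟨hW, hW', ?_, hup, hlo⟩
    intro a ξ
    change S (W a ξ) = S (W a (S' (S ξ)))
    have : S' (S ξ) = ξ := by
      have h : (S' * S) ξ = ξ := by rw [i2]; rfl
      exact h
    rw [this]
  by_cases h0 : amp W (Fin m) X = 0
  · rw [h0, norm_zero]
    positivity
  obtain ⟨Fl, f1, f2, f3, f4, f5, f6⟩ := ult_gen2 R hc0.le X h0
  have hFl : CUlt M Fl := ⟨f1, f2, f3, f4, f5⟩
  obtain ⟨B, _, φ, hφs, hφc, hφr⟩ := fin_hfib L M Fl hFl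
  -- the bound for `κ`
  have hκbd : ∀ κ : ℝ, 0 ≤ κ → c ^ 2 * κ < ‖amp W (Fin m) X‖ → κ ≤ F c * ‖X‖ := by
    intro κ hκ0 hκ
    obtain ⟨K, _, _, _, w, hw, hwa, hws, hκw⟩ := hfib2 prove_up prove_upalg L M Fl hFl H W' hW' c
      hc0.le hn m X κ hκ0 (fun p hp => f6 p hp κ hκ0 hκ)
    have hex : ∀ a : M.toStarSubalgebra, ∀ r : ℝ, 0 < r → ∃ p ∈ Fl, ‖p * a‖ < ‖φ a‖ + r := by
      intro a r hr
      by_contra hcon
      push Not at hcon
      have := hφr a (‖φ a‖ + r) hcon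
      linarith
    have hwφ : ∀ a : M.toStarSubalgebra, ‖w a‖ ≤ c * ‖φ a‖ := by
      intro a
      refine le_of_forall_pos_le_add ?_
      intro ε hε
      obtain ⟨p, hp, hpa⟩ := hex a (ε / c) (by positivity)
      calc ‖w a‖ ≤ c * ‖p * a‖ := hwa a p hp
        _ ≤ c * (‖φ a‖ + ε / c) := by gcongr
        _ = c * ‖φ a‖ + ε := by field_simp
    have hfac : ∀ a b : M.toStarSubalgebra, φ a = φ b → w a = w b := by
      intro a b hab
      have e1 := hwφ (a - b)
      rw [map_sub φ, hab, sub_self, norm_zero, mul_zero] at e1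
      have e2 : w (a - b) = 0 := norm_le_zero_iff.1 e1
      rw [map_sub] at e2
      exact sub_eq_zero.1 e2
    let s : B → M.toStarSubalgebra := Function.surjInv hφs
    have hs : ∀ b, φ (s b) = b := Function.surjInv_eq hφs
    let w' : B →ₗ[ℂ] (K →L[ℂ] K) :=
      { toFun := fun b => w (s b)
        map_add' := fun a b => by
          rw [← map_add]
          apply hfac
          rw [map_add, hs, hs, hs]
        map_smul' := fun r a => by
          rw [RingHom.id_apply, ← map_smul]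
          apply hfac
          rw [map_smul, hs, hs] }
    have hw'φ : ∀ a, w' (φ a) = w a := by
      intro a
      apply hfac
      rw [hs]
    have hw' : IsHom w' := by
      constructor
      · intro a b
        rw [← hs a, ← hs b, ← map_mul, hw'φ, hw'φ, hw'φ, hw.mul]
      · rw [← map_one φ, hw'φ, hw.one]
    have hw'c : ∀ b, ‖w' b‖ ≤ c * ‖b‖ := by
      intro b
      rw [← hs b, hw'φ]
      exact hwφ _
    letI : PartialOrder B := CStarAlgebra.spectralOrder B
    haveI : StarOrderedRing B := CStarAlgebra.spectralOrderedRing B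
    have hlvl : LvlBd w' m (F c) := by
      by_cases h1 : (1 : B) ≠ 0
      · have hz : ∀ z : M.toStarSubalgebra, (∀ a, z * a = a * z) →
            ∃ l : ℂ, φ z = algebraMap ℂ B l := by
          intro z hzc
          obtain ⟨l, hl⟩ := hφc z hzc
          exact ⟨l, by rw [hl, Algebra.algebraMap_eq_smul_one]⟩
        have hB : IsFib B := p_Q_fib p_Q_lift M.toStarSubalgebra B φ hVN hφs h1 hz
        refine fibre_bd hmain hF hB (t := fun i => φ (t i)) (i0 := i0) (v := φ v)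
          (fun h3 h4 => hDφ B φ hφs h1 hz h3 h4) hm hk w' hw' hc hw'c ?_ ?_
        · intro i
          rw [← map_star φ, hw'φ, hw'φ]
          exact hws _ (hst i)
        · rw [← map_star φ, hw'φ, hw'φ]
          exact hws _ hsv
      · rw [not_not] at h1
        intro Y
        have hY : Y = 0 := by
          ext i j
          have : (Y i j : B) = 0 := by rw [← mul_one (Y i j), h1, mul_zero]
          exact this
        rw [hY, map_zero, norm_zero, norm_zero, mul_zero]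
    have hlvl2 := hlvl (CStarMatrix.mapₙₐ (n := Fin m) (φ : M.toStarSubalgebra →⋆ₙₐ[ℂ] B) X)
    have hn : ‖CStarMatrix.mapₙₐ (n := Fin m) (φ : M.toStarSubalgebra →⋆ₙₐ[ℂ] B) X‖ ≤ ‖X‖ :=
      NonUnitalStarAlgHom.norm_apply_le _ _
    have he : amp w' (Fin m) (CStarMatrix.mapₙₐ (n := Fin m)
        (φ : M.toStarSubalgebra →⋆ₙₐ[ℂ] B) X) = amp w (Fin m) X := by
      ext ξ i
      rw [amp_apply, amp_apply]
      refine Finset.sum_congr rfl fun j _ => ?_
      rw [← hw'φ]
      rfl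
    rw [he] at hlvl2
    exact hκw.trans (hlvl2.trans (mul_le_mul_of_nonneg_left hn hF0))
  by_contra hcon
  push Not at hcon
  have hc2 : 0 < c ^ 2 := by positivity
  set a : ℝ := F c * ‖X‖ with ha
  set b : ℝ := ‖amp W (Fin m) X‖ / c ^ 2 with hb
  have hb' : c ^ 2 * b = ‖amp W (Fin m) X‖ := by rw [hb]; field_simp
  have hab : a < b := by
    rw [hb, lt_div_iff₀ hc2]
    calc a * c ^ 2 = c ^ 2 * F c * ‖X‖ := by rw [ha]; ring
      _ < _ := hcon
  have ha0 : 0 ≤ a := by positivity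
  have := hκbd ((a + b) / 2) (by linarith) (by
    rw [← hb']
    exact mul_lt_mul_of_pos_left (by linarith) hc2)
  linarith

end Pool.Agent.Y784.KS
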