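import Mathlib
import Pool.Agent.Y784.KS.Asm

/-! All C*-algebras: bounded homomorphisms are completely bounded with a good exponent, and the
corresponding similarity. -/

open scoped ComplexOrder InnerProductSpace

noncomputable section

namespace Pool.Agent.Y784.KS

open H759R2.Kad H711R2.KG H770R2.Kad H770R2.Kad.AULT

/-- Bounded homomorphisms of C*-algebras are completely bounded. -/
theorem cb_bd {F : ℝ → ℝ} {G : ℕ → ℕ} (hmain : MainBd.{0, 0} F G)
    (hF : ∀ γ : ℝ, 1 ≤ γ → 16 * γ ^ 4 ≤ F γ)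
    (A : Type) [CStarAlgebra A] [PartialOrder A] [StarOrderedRing A]
    (H : Type) [NormedAddCommGroup H] [InnerProductSpace ℂ H] [CompleteSpace H]
    (w : A →ₗ[ℂ] (H →L[ℂ] H)) (hw : IsHom w) (c : ℝ) (hc : 1 ≤ c) (hwb : ∀ a, ‖w a‖ ≤ c * ‖a‖)
    (m : ℕ) : LvlBd w m ((2 * c) ^ 2 * F (2 * c)) := by
  intro X
  have hF0 : 0 ≤ F (2 * c) := le_trans (by positivity) (hF (2 * c) (by linarith))
  rcases subsingleton_or_nontrivial A with hA | hA
  · have h0 : amp w (Fin m) X = 0 := by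
      ext v i
      rw [amp_apply]
      have : ∀ j, w (X i j) = 0 := fun j => by
        rw [Subsingleton.elim (X i j) 0, map_zero]
      simp [this]
    rw [h0, norm_zero]
    positivity
  · have h1 : H_uni := prove_uni (prove_piet H710R2.DP.fin_gt) prove_dsum prove_gns
    have h2 : H_ext := prove_hext (prove_net prove_kap)
    obtain ⟨L, iL1, iL2, iL3, π, hπ⟩ := h1 A H w c (by linarith) hwb
    obtain ⟨M, θ, W, hW, hWb, hWθ⟩ := h2 A H w hw c (by linarith) hwb L π hπ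
    let i1 : PartialOrder M.toStarSubalgebra := CStarAlgebra.spectralOrder M.toStarSubalgebra
    let i2 : StarOrderedRing M.toStarSubalgebra :=
      CStarAlgebra.spectralOrderedRing M.toStarSubalgebra
    set Z : CStarMatrix (Fin m) (Fin m) M.toStarSubalgebra :=
      CStarMatrix.mapₙₐ (n := Fin m) (θ : A →⋆ₙₐ[ℂ] M.toStarSubalgebra) X with hZ
    have hZn : ‖Z‖ ≤ ‖X‖ := NonUnitalStarAlgHom.norm_apply_le _ _
    have hZa : ∀ i k, Z i k = θ (X i k) := fun i k => rfl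
    have he : amp w (Fin m) X = amp W (Fin m) Z := by
      ext ξ i
      rw [amp_apply, amp_apply]
      refine Finset.sum_congr rfl fun k _ => ?_
      rw [hZa, hWθ]
    have h := vn_bd hmain hF L M H W hW (2 * c) (by linarith) hWb m Z
    rw [he]
    exact h.trans (mul_le_mul_of_nonneg_left hZn (by positivity))

/-- The numerical bound. -/
theorem cb9 (A : Type) [CStarAlgebra A] [PartialOrder A] [StarOrderedRing A]
    (H : Type) [NormedAddCommGroup H] [InnerProductSpace ℂ H] [CompleteSpace H]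
    (w : A →ₗ[ℂ] (H →L[ℂ] H)) (hw : IsHom w) (c : ℝ) (hc : 1 ≤ c) (hwb : ∀ a, ‖w a‖ ≤ c * ‖a‖)
    (m : ℕ) : LvlBd w m (216 * (2 * c) ^ 9) := by
  have h := cb_bd (F := fun γ => 216 * γ ^ 7) mainBd7 (fun γ hγ => ?_) A H w hw c hc hwb m
  · have : (2 * c) ^ 2 * (216 * (2 * c) ^ 7) = 216 * (2 * c) ^ 9 := by ring
    rw [← this]
    exact h
  · have h1 : γ ^ 4 ≤ γ ^ 7 := pow_le_pow_right₀ hγ (by norm_num)
    have h2 : 0 ≤ γ ^ 7 := by positivity
    show 16 * γ ^ 4 ≤ 216 * γ ^ 7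
    linarith

/-- Similarity, with the improved exponent. -/
theorem similar9 (A : Type) [CStarAlgebra A]
    (H : Type) [NormedAddCommGroup H] [InnerProductSpace ℂ H] [CompleteSpace H]
    (u : A →ₗ[ℂ] (H →L[ℂ] H)) (hu : IsHom u) (c : ℝ) (hc : 1 ≤ c) (hb : ∀ a, ‖u a‖ ≤ c * ‖a‖) :
    ∃ S S' : H →L[ℂ] H, S * S' = 1 ∧ S' * S = 1 ∧ ‖S‖ ^ 2 ≤ 216 * (2 * c) ^ 9 ∧
      ‖S'‖ ^ 2 ≤ 216 * (2 * c) ^ 9 ∧ ∀ a, star (S * u a * S') = S * u (star a) * S' := by
  letI : PartialOrder A := CStarAlgebra.spectralOrder A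
  letI : StarOrderedRing A := CStarAlgebra.spectralOrderedRing A
  refine final_similar A H u hu (216 * (2 * c) ^ 9) ?_ (cb9 A H u hu c hc hb)
  have : (1 : ℝ) ≤ (2 * c) ^ 9 := one_le_pow₀ (by linarith)
  linarith

end Pool.Agent.Y784.KS
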